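import Pool.Agent.H948.SF.Stm

/-!
# Deterministic facts on infection paths
-/

namespace Pool.Agent.H948.SF

open MeasureTheory ProbabilityTheory Set Filter
open scoped ENNReal NNReal Nat Topology

section Paths

variable {V : Type} {G G' : SimpleGraph V} {rec rec' : V → Set ℝ} {tr tr' : Sym2 V → Set ℝ}
  {x y z : V} {s t u : ℝ}

theorem Path.le (h : Path G rec tr x s y t) : s ≤ t := by
  induction h with
  | start => exact le_rfl
  | stay _ h _ ih => exact ih.trans h
  | cross _ _ h _ ih => exact ih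

theorem Path.trans (h : Path G rec tr x s y t) (h' : Path G rec tr y t z u) :
    Path G rec tr x s z u := by
  induction h' with
  | start => exact h
  | stay _ h1 h2 ih => exact ih.stay h1 h2
  | cross h0 h1 h2 h3 ih => exact ih.cross h1 (lt_of_le_of_lt h.le h2) h3

theorem Path.split (h : Path G rec tr x s z u) (h1 : s ≤ t) (h2 : t ≤ u) :
    ∃ y, Path G rec tr x s y t ∧ Path G rec tr y t z u := by
  induction h with
  | start =>
    have : t = s := le_antisymm h2 h1
    subst this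
    exact ⟨x, .start, .start⟩
  | @stay y' t' u' h0 hle hr ih =>
    by_cases hc : t ≤ t'
    · obtain ⟨y, a, b⟩ := ih hc
      exact ⟨y, a, b.stay hle hr⟩
    · push Not at hc
      exact ⟨y', h0.stay hc.le (fun r a b => hr r a (b.trans h2)),
        Path.start.stay h2 (fun r a b => hr r (hc.trans a) b)⟩
  | @cross y' z' t' h0 hadj hlt hmem ih =>
    by_cases hc : t < t'
    · obtain ⟨y, a, b⟩ := ih hc.le
      exact ⟨y, a, b.cross hadj hc hmem⟩
    · have : t = t' := le_antisymm h2 (not_lt.1 hc)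
      subst this
      exact ⟨z', h0.cross hadj hlt hmem, .start⟩

/-- The vertices of a path: the start or vertices with neighbours. -/
theorem Path.vert (h : Path G rec tr x s y t) : y = x ∨ ∃ z, G.Adj y z := by
  induction h with
  | start => exact Or.inl rfl
  | stay _ _ _ ih => exact ih
  | @cross y z t _ hadj _ _ _ => exact Or.inr ⟨y, hadj.symm⟩

theorem Path.mono (h : Path G rec tr x s y t) (hG : ∀ y z, G.Adj y z → G'.Adj y z)
    (hr : ∀ y, (y = x ∨ ∃ z, G.Adj y z) → ∀ r, s < r → r ≤ t → r ∈ rec' y → r ∈ rec y)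
    (ht : ∀ y z, G.Adj y z → ∀ r, s < r → r ≤ t → r ∈ tr s(y, z) → r ∈ tr' s(y, z)) :
    Path G' rec' tr' x s y t := by
  induction h with
  | start => exact .start
  | @stay y' t' u' h0 hle hrr ih =>
    refine (ih (fun y hy r a b => hr y hy r a (b.trans hle))
      (fun y z hyz r a b => ht y z hyz r a (b.trans hle))).stay hle ?_
    intro r a b hmem
    exact hrr r a b (hr y' h0.vert r (lt_of_le_of_lt h0.le a) b hmem)
  | @cross y' z' t' h0 hadj hlt hmem ih =>
    exact (ih hr ht).cross (hG _ _ hadj) hlt (ht _ _ hadj _ hlt le_rfl hmem)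

end Paths

section Map

variable {A B : Type} {GA : SimpleGraph A} {GB : SimpleGraph B} {recA : A → Set ℝ}
  {recB : B → Set ℝ} {trA : Sym2 A → Set ℝ} {trB : Sym2 B → Set ℝ} {Φ : A → B} {k0 : ℝ}

theorem Path.map {u v : A} {s t : ℝ} (h : Path GA recA trA u s v t)
    (hadj : ∀ u v, GA.Adj u v → GB.Adj (Φ u) (Φ v))
    (hrec : ∀ u r, r + k0 ∈ recB (Φ u) → r ∈ recA u)
    (htr : ∀ u v r, GA.Adj u v → r ∈ trA s(u, v) → r + k0 ∈ trB s(Φ u, Φ v)) :
    Path GB recB trB (Φ u) (s + k0) (Φ v) (t + k0) := by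
  induction h with
  | start => exact .start
  | @stay y' t' u' h0 hle hrr ih =>
    refine ih.stay (by linarith) ?_
    intro r a b hmem
    refine hrr (r - k0) (by linarith) (by linarith) (hrec _ _ ?_)
    simpa using hmem
  | @cross y' z' t' h0 ha hlt hmem ih =>
    exact ih.cross (hadj _ _ ha) (by linarith) (htr _ _ _ ha hmem)

theorem Path.unmap {u : A} {x : B} {s t : ℝ} (h : Path GB recB trB (Φ u) (s + k0) x t)
    (hadj : ∀ u v, GB.Adj (Φ u) (Φ v) → GA.Adj u v)
    (hexit : ∀ u x, GB.Adj (Φ u) x → x ∈ range Φ)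
    (hrec : ∀ u r, r ∈ recA u → r + k0 ∈ recB (Φ u))
    (htr : ∀ u v r, GA.Adj u v → r + k0 ∈ trB s(Φ u, Φ v) → r ∈ trA s(u, v)) :
    ∃ v, x = Φ v ∧ Path GA recA trA u s v (t - k0) := by
  induction h with
  | start => exact ⟨u, rfl, by simpa using Path.start⟩
  | @stay y' t' u' h0 hle hrr ih =>
    obtain ⟨v, rfl, hv⟩ := ih
    refine ⟨v, rfl, hv.stay (by linarith) ?_⟩
    intro r a b hmem
    exact hrr (r + k0) (by linarith) (by linarith) (hrec _ _ hmem)
  | @cross y' z' t' h0 ha hlt hmem ih =>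
    obtain ⟨v, rfl, hv⟩ := ih
    obtain ⟨v', rfl⟩ := hexit _ _ ha
    refine ⟨v', rfl, hv.cross (hadj _ _ ha) (by linarith) (htr _ _ _ (hadj _ _ ha) ?_)⟩
    simpa using hmem

end Map

section Env

variable {V : Type} {G G' : SimpleGraph V} {ω ω' : Env (Lab V)} {x y z : V} {s t u : ℝ}

theorem PE.le (h : PE G ω x s y t) : s ≤ t := Path.le h

theorem PE.refl (x : V) (s : ℝ) : PE G ω x s x s := Path.start

theorem PE.trans (h : PE G ω x s y t) (h' : PE G ω y t z u) : PE G ω x s z u := Path.trans h h'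

theorem PE.split (h : PE G ω x s z u) (h1 : s ≤ t) (h2 : t ≤ u) :
    ∃ y, PE G ω x s y t ∧ PE G ω y t z u := Path.split h h1 h2

theorem PE.stay (h : PE G ω x s y t) (h1 : t ≤ u)
    (h2 : ∀ r, t < r → r ≤ u → r ∉ marks ω (Sum.inr y)) : PE G ω x s y u := Path.stay h h1 h2

theorem PE.cross (h : PE G ω x s y t) (h1 : G.Adj y z) (h2 : s < t)
    (h3 : t ∈ marks ω (Sum.inl s(y, z))) : PE G ω x s z t := Path.cross h h1 h2 h3

theorem PE.vert (h : PE G ω x s y t) : y = x ∨ ∃ z, G.Adj y z := Path.vert h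

/-- Monotonicity in the graph. -/
theorem PE.mono (h : PE G ω x s y t) (hG : G ≤ G') : PE G' ω x s y t :=
  Path.mono h (fun _ _ h => hG h) (fun _ _ _ _ _ h => h) (fun _ _ _ _ _ _ h => h)

theorem Con.trans {k l m : ℤ} (h : Con G ω x k y l) (h' : Con G ω y l z m) : Con G ω x k z m :=
  Path.trans h h'

theorem Con.split {k l m : ℤ} (h : Con G ω x k z m) (h1 : k ≤ l) (h2 : l ≤ m) :
    ∃ y, Con G ω x k y l ∧ Con G ω y l z m :=
  Path.split h (by exact_mod_cast h1) (by exact_mod_cast h2)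

theorem Con.mono {k l : ℤ} (h : Con G ω x k y l) (hG : G ≤ G') : Con G' ω x k y l :=
  PE.mono h hG

/-- No time: the path is trivial. -/
theorem PE.eq_of_eq (h : PE G ω x s y s) : y = x := by
  have key : ∀ {y t}, PE G ω x s y t → t = s → y = x := by
    intro y t h
    induction h with
    | start => intro _; rfl
    | stay h0 hle _ ih => intro hu; exact ih (le_antisymm (hu ▸ hle) (Path.le h0))
    | cross h0 _ hlt _ _ => intro hu; exact absurd hu hlt.ne'
  exact key h rfl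

theorem Con.eq_of_eq {k : ℤ} (h : Con G ω x k y k) : y = x := PE.eq_of_eq h

theorem Rs_le (G : SimpleGraph V) (S : Set V) : Rs G S ≤ G := fun _ _ h => h.1

theorem Rs_mono (G : SimpleGraph V) {S T : Set V} (h : S ⊆ T) : Rs G S ≤ Rs G T :=
  fun _ _ h' => ⟨h'.1, h h'.2.1, h h'.2.2⟩

theorem Rs_univ (G : SimpleGraph V) : Rs G univ = G := by
  ext x y; simp [Rs]

/-- The end point of a path in a restricted graph. -/
theorem PE.mem_of_Rs {S : Set V} (h : PE (Rs G S) ω x s y t) (hx : x ∈ S) : y ∈ S := by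
  rcases h.vert with rfl | ⟨z, hz⟩
  · exact hx
  · exact hz.2.1

/-- If the end point is in `S`, so is the start (or the path is constant). -/
theorem PE.start_of_Rs {S : Set V} (h : PE (Rs G S) ω x s y t) (hy : y ∈ S) : x ∈ S := by
  have key : ∀ {y t}, PE (Rs G S) ω x s y t → y ∈ S → x ∈ S := by
    intro y t h
    induction h with
    | start => exact id
    | stay _ _ _ ih => exact ih
    | cross _ hadj _ _ ih => intro _; exact ih hadj.2.1
  exact key h hy

theorem mem_marks_iff {ι : Type} {ω : Env ι} {i : ι} {r : ℝ} :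
    r ∈ marks ω i ↔ ∃ (k : ℤ) (l : ℕ), l < (ω (i, k)).1 ∧ r = k + ((ω (i, k)).2 l : ℝ) := Iff.rfl

/-- Marks in the windows `k ≤ · < l` are determined by the cells of these windows. -/
theorem marks_congr {ι : Type} {ω ω' : Env ι} {i : ι} {k l : ℤ}
    (h : ∀ m, k ≤ m → m < l → ω (i, m) = ω' (i, m)) {r : ℝ} (h1 : (k : ℝ) < r) (h2 : r ≤ l)
    (hr : r ∈ marks ω i) : r ∈ marks ω' i := by
  obtain ⟨m, n, hn, rfl⟩ := hr
  have hU := (((ω (i, m)).2 n).2 : ((ω (i, m)).2 n : ℝ) ∈ Ioc (0 : ℝ) 1)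
  have hm1 : k ≤ m := by
    have : (k : ℝ) < m + 1 := by linarith [hU.2]
    exact Int.lt_add_one_iff.1 (by exact_mod_cast this)
  have hm2 : m < l := by
    have : (m : ℝ) < l := by linarith [hU.1]
    exact_mod_cast this
  refine ⟨m, n, ?_, ?_⟩
  · rw [← h m hm1 hm2]; exact hn
  · rw [← h m hm1 hm2]

/-- Dependence on the cells. -/
theorem Con_congr {k l : ℤ} (h : ∀ i ∈ Use G x k l, ω i = ω' i) :
    Con G ω x k y l ↔ Con G ω' x k y l := by
  have key : ∀ {ω ω' : Env (Lab V)}, (∀ i ∈ Use G x k l, ω i = ω' i) →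
      Con G ω x k y l → Con G ω' x k y l := by
    intro ω ω' h hc
    refine Path.mono hc (fun _ _ h => h) ?_ ?_
    · intro y hy r h1 h2 hr
      refine marks_congr (k := k) (l := l) (fun m hm hm' => ?_) h1 h2 hr
      exact (h (Sum.inr y, m) ⟨hm, hm', Or.inr ⟨y, hy, rfl⟩⟩).symm
    · intro y z hyz r h1 h2 hr
      refine marks_congr (k := k) (l := l) (fun m hm hm' => ?_) h1 h2 hr
      exact h (Sum.inl s(y, z), m) ⟨hm, hm', Or.inl ⟨y, z, hyz, rfl⟩⟩
  exact ⟨key h, key fun i hi => (h i hi).symm⟩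

/-- A window without recovery marks of `x`: the infection stays. -/
theorem Con_stay {k : ℤ} (h : (ω (Sum.inr x, k)).1 = 0) : Con G ω x k x (k + 1) := by
  refine PE.stay (PE.refl x _) (by push_cast; linarith) ?_
  intro r h1 h2 hr
  obtain ⟨m, n, hn, rfl⟩ := hr
  have hU := (((ω (Sum.inr x, m)).2 n).2 : ((ω (Sum.inr x, m)).2 n : ℝ) ∈ Ioc (0 : ℝ) 1)
  have hm1 : k ≤ m := by
    have : (k : ℝ) < m + 1 := by linarith [hU.2]
    exact Int.lt_add_one_iff.1 (by exact_mod_cast this)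
  have hm2 : m < k + 1 := by
    have : (m : ℝ) < ((k + 1 : ℤ) : ℝ) := by push_cast at h2 ⊢; linarith [hU.1]
    exact_mod_cast this
  have : m = k := by omega
  subst this
  omega

end Env

section Pull

variable {A B : Type} {GA : SimpleGraph A} {GB : SimpleGraph B} {Φ : A → B} {k0 : ℤ}
  {ω : Env (Lab B)}

theorem marks_pull_inr (x : A) (r : ℝ) :
    r ∈ marks (pull Φ k0 ω) (Sum.inr x) ↔ r + k0 ∈ marks ω (Sum.inr (Φ x)) := by
  constructor
  · rintro ⟨k, l, h1, h2⟩
    refine ⟨k + k0, l, h1, ?_⟩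
    simp only [pull] at h2
    rw [h2]; push_cast; ring
  · rintro ⟨k, l, h1, h2⟩
    have hk : k - k0 + k0 = k := by ring
    refine ⟨k - k0, l, ?_, ?_⟩
    · simp only [pull, hk]; exact h1
    · simp only [pull, hk]; push_cast; linarith

theorem marks_pull_inl (e : Sym2 A) (r : ℝ) :
    r ∈ marks (pull Φ k0 ω) (Sum.inl e) ↔ r + k0 ∈ marks ω (Sum.inl (e.map Φ)) := by
  constructor
  · rintro ⟨k, l, h1, h2⟩
    refine ⟨k + k0, l, h1, ?_⟩
    simp only [pull] at h2
    rw [h2]; push_cast; ring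
  · rintro ⟨k, l, h1, h2⟩
    have hk : k - k0 + k0 = k := by ring
    refine ⟨k - k0, l, ?_, ?_⟩
    · simp only [pull, hk]; exact h1
    · simp only [pull, hk]; push_cast; linarith

/-- Paths in the pulled back environment. -/
theorem PE_pull (hΦ : Function.Injective Φ) (hadj : ∀ u v, GA.Adj u v ↔ GB.Adj (Φ u) (Φ v))
    (hexit : ∀ u x, GB.Adj (Φ u) x → x ∈ range Φ) (u v : A) (s t : ℝ) :
    PE GA (pull Φ k0 ω) u s v t ↔ PE GB ω (Φ u) (s + k0) (Φ v) (t + k0) := by
  constructor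
  · intro h
    refine Path.map h (fun u v => (hadj u v).1) ?_ ?_
    · intro u r hr; exact (marks_pull_inr u r).2 hr
    · intro u v r _ hr; simpa using (marks_pull_inl s(u, v) r).1 hr
  · intro h
    obtain ⟨v', hv', hp⟩ := Path.unmap (recA := fun v => marks (pull Φ k0 ω) (Sum.inr v))
      (trA := fun e => marks (pull Φ k0 ω) (Sum.inl e)) h (fun u v => (hadj u v).2) hexit
      (fun u r hr => (marks_pull_inr u r).1 hr)
      (fun u v r _ hr => (marks_pull_inl s(u, v) r).2 (by simpa using hr))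
    have := hΦ hv'
    subst this
    simpa [PE] using hp

/-- The end point of a path that starts in the image of `Φ`. -/
theorem PE_range (hexit : ∀ u x, GB.Adj (Φ u) x → x ∈ range Φ) {u : A} {x : B} {s t : ℝ}
    (h : PE GB ω (Φ u) s x t) : x ∈ range Φ := by
  induction h with
  | start => exact ⟨u, rfl⟩
  | stay _ _ _ ih => exact ih
  | cross _ ha _ _ ih => obtain ⟨v, rfl⟩ := ih; exact hexit _ _ ha

theorem Con_pull (hΦ : Function.Injective Φ) (hadj : ∀ u v, GA.Adj u v ↔ GB.Adj (Φ u) (Φ v))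
    (hexit : ∀ u x, GB.Adj (Φ u) x → x ∈ range Φ) (u v : A) (k l : ℤ) :
    Con GA (pull Φ k0 ω) u k v l ↔ Con GB ω (Φ u) (k + k0) (Φ v) (l + k0) := by
  have := PE_pull (k0 := k0) (ω := ω) hΦ hadj hexit u v (k : ℝ) (l : ℝ)
  simpa [Con] using this

/-- Restricted graphs: the region `S` of `A` and its image. -/
theorem Con_pull_Rs (hΦ : Function.Injective Φ)
    (hadj : ∀ u v, GA.Adj u v ↔ GB.Adj (Φ u) (Φ v)) (S : Set A) (u v : A) (k l : ℤ) :
    Con (Rs GA S) (pull Φ k0 ω) u k v l ↔ Con (Rs GB (Φ '' S)) ω (Φ u) (k + k0) (Φ v) (l + k0) := by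
  refine Con_pull hΦ ?_ ?_ u v k l
  · intro u v
    constructor
    · rintro ⟨h1, h2, h3⟩; exact ⟨(hadj u v).1 h1, ⟨u, h2, rfl⟩, ⟨v, h3, rfl⟩⟩
    · rintro ⟨h1, ⟨u', h2, h2'⟩, ⟨v', h3, h3'⟩⟩
      have := hΦ h2'
      have := hΦ h3'
      subst u' v'
      exact ⟨(hadj u v).2 h1, h2, h3⟩
  · rintro u x ⟨_, _, ⟨v, _, hv⟩⟩; exact ⟨v, hv⟩

/-- Pure time shift. -/
theorem Con_shift (G : SimpleGraph B) (u v : B) (k l : ℤ) :
    Con G (pull id k0 ω) u k v l ↔ Con G ω u (k + k0) v (l + k0) :=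
  Con_pull Function.injective_id (fun _ _ => Iff.rfl) (fun _ x _ => ⟨x, rfl⟩) u v k l

end Pull

section Tree

variable {e : ℕ}

theorem app_injective (c : W e) : Function.Injective (fun u : W e => u ++ c) :=
  fun _ _ h => List.append_cancel_right h

theorem TW_app (c u v : W e) : (TW e).Adj u v ↔ (TW e).Adj (u ++ c) (v ++ c) := by
  constructor
  · rintro (⟨a, rfl⟩ | ⟨a, rfl⟩)
    · exact Or.inl ⟨a, rfl⟩
    · exact Or.inr ⟨a, rfl⟩
  · rintro (⟨a, h⟩ | ⟨a, h⟩)
    · exact Or.inl ⟨a, List.append_cancel_right (by simpa using h)⟩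
    · exact Or.inr ⟨a, List.append_cancel_right (by simpa using h)⟩

/-- Descendants of `c`: the tree seen from `c` and from time `k0`. -/
theorem Con_app (S : Set (W e)) (c : W e) (k0 : ℤ) (ω : Env (Lab (W e))) (u v : W e) (k l : ℤ) :
    Con (Rs (TW e) S) (pull (fun u => u ++ c) k0 ω) u k v l ↔
      Con (Rs (TW e) ((· ++ c) '' S)) ω (u ++ c) (k + k0) (v ++ c) (l + k0) :=
  Con_pull_Rs (app_injective c) (TW_app c) S u v k l

theorem Blk_iff (M τ : ℕ) (ω : Env (Lab (W e))) (c : W e) (t : ℤ) (w : W e) :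
    Blk e M τ ω c t w ↔
      Con (Rs (TW e) (Bset e M)) (pull (fun u => u ++ c) (t * τ) ω) w (-(τ : ℤ)) [] 0 := by
  rw [Con_app]
  unfold Blk
  have h1 : (t - 1) * (τ : ℤ) = -(τ : ℤ) + t * τ := by ring
  rw [h1]
  simp

theorem Sv_of_succ {M τ : ℕ} {ω : Env (Lab (W e))} : ∀ {i : ℕ} {c : W e} {t : ℤ},
    Sv e M τ ω (i + 1) c t → Sv e M τ ω i c t
  | 0, _, _, _ => trivial
  | _ + 1, _, _, ⟨w, hw, hb, hs⟩ => ⟨w, hw, hb, Sv_of_succ hs⟩

theorem Lset_finite (e M : ℕ) : (Lset e M).Finite := by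
  refine (List.finite_length_eq (Fin (e + 2)) M).subset ?_
  rintro w ⟨_, h⟩
  exact h

end Tree

end Pool.Agent.H948.SF
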