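import Mathlib

/-!
# Spin-flip domination for the contact process on trees (MP_69dcc1_pr): definitions

Poisson processes on the real line, infection paths (graphical representation), the upper invariant
measure, the critical value, the upper stationary contact process, the stationary independent
spin-flip process, positive density.
-/

namespace Pool.Agent.H948.SF

open MeasureTheory ProbabilityTheory Set Filter
open scoped ENNReal NNReal Nat Topology

/-- Independent Poisson processes on the real line indexed by `ι`: `N i ω` is the (random) set of
the points of the process `i`, which has the rate `rate i`.  The numbers of points in bounded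
intervals `(a, b]` are random variables with the Poisson law with mean `rate i * (b - a)`, and the
numbers of points of arbitrarily many pairwise disjoint pieces `{i} × (a, b]` are independent. -/
structure IsPoissonFamily {ι Ω : Type} [MeasurableSpace Ω] (P : Measure Ω) (rate : ι → ℝ)
    (N : ι → Ω → Set ℝ) : Prop where
  rate_nonneg : ∀ i, 0 ≤ rate i
  meas : ∀ i a b, Measurable fun ω => (N i ω ∩ Ioc a b).encard
  law : ∀ i a b, a ≤ b → ∀ k : ℕ,
    P {ω | (N i ω ∩ Ioc a b).encard = (k : ℕ∞)} =
      ENNReal.ofReal (Real.exp (-(rate i * (b - a))) * (rate i * (b - a)) ^ k / (k)!)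
  indep : ∀ (κ : Type) (l : κ → ι) (a b : κ → ℝ),
    (∀ j k, j ≠ k → l j = l k → Disjoint (Ioc (a j) (b j)) (Ioc (a k) (b k))) →
    iIndepFun (fun k ω => (N (l k) ω ∩ Ioc (a k) (b k)).encard) P

variable {V Ω : Type}

/-- Infection paths.  `rec x` is the set of the recovery times of the vertex `x`, `tr e` the set of
the times at which the infection can cross the pair `e` (in both directions).
`Path G rec tr x s y t`: if `x` is infected at time `s`, then `y` is infected at time `t`. -/
inductive Path (G : SimpleGraph V) (rec : V → Set ℝ) (tr : Sym2 V → Set ℝ) (x : V) (s : ℝ) :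
    V → ℝ → Prop
  | start : Path G rec tr x s x s
  | stay {y : V} {t u : ℝ} : Path G rec tr x s y t → t ≤ u →
      (∀ r, t < r → r ≤ u → r ∉ rec y) → Path G rec tr x s y u
  | cross {y z : V} {t : ℝ} : Path G rec tr x s y t → G.Adj y z → s < t → t ∈ tr s(y, z) →
      Path G rec tr x s z t

/-- Labels of the Poisson processes of the contact process: `inl e` the transmissions across the
pair `e`, `inr x` the recoveries of the vertex `x`. -/
abbrev Lab (V : Type) := Sym2 V ⊕ V

/-- Every edge transmits the infection at rate `lam`, every vertex recovers at rate `1`. -/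
def contactRate (lam : ℝ) : Lab V → ℝ
  | Sum.inl _ => lam
  | Sum.inr _ => 1

/-- `x` is infected at time `0` in the upper invariant configuration: for every time `s < 0`
there is an infection path from some vertex at time `s` to `x` at time `0`.  This configuration is
the decreasing limit, as `s → -∞`, of the configuration at time `0` of the contact process started
at time `s` from all vertices infected. -/
def Upper0 (G : SimpleGraph V) (N : Lab V → Ω → Set ℝ) (x : V) (ω : Ω) : Prop :=
  ∀ s : ℝ, s < 0 → ∃ y, Path G (fun v => N (Sum.inr v) ω) (fun e => N (Sum.inl e) ω) y s x 0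

/-- The upper stationary contact process: `x` is infected at time `t ≥ 0` in the contact process
started at time `0` from the upper invariant configuration. -/
def Upper (G : SimpleGraph V) (N : Lab V → Ω → Set ℝ) (x : V) (t : ℝ) (ω : Ω) : Prop :=
  ∃ y, Upper0 G N y ω ∧
    Path G (fun v => N (Sum.inr v) ω) (fun e => N (Sum.inl e) ω) y 0 x t

/-- The upper invariant measure of the contact process with parameter `lam` is the point mass at
the configuration without infected vertices. -/
def UpperTrivial (G : SimpleGraph V) (lam : ℝ) : Prop :=
  ∃ (Ω : Type) (_ : MeasurableSpace Ω) (P : Measure Ω) (_ : IsProbabilityMeasure P)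
    (N : Lab V → Ω → Set ℝ), IsPoissonFamily P (contactRate lam) N ∧
      P {ω | ∃ x, Upper0 G N x ω} = 0

/-- The critical value: the supremum of the parameters with trivial upper invariant measure. -/
noncomputable def lamC (G : SimpleGraph V) : ℝ≥0∞ :=
  sSup {l | ∃ lam : ℝ, 0 ≤ lam ∧ UpperTrivial G lam ∧ l = ENNReal.ofReal lam}

/-- Labels of the independent spin-flip process: `inl x` marks the flips of `x` to one, at rate
`α`, `inr x` the flips of `x` to zero, at rate `1`. -/
def spinRate (α : ℝ) : V ⊕ V → ℝ
  | Sum.inl _ => α
  | Sum.inr _ => 1

/-- The stationary independent spin-flip process: `x` has spin one at time `t` if the last mark of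
`x` in `(-∞, t]` is a flip to one. -/
def Spin (M : V ⊕ V → Ω → Set ℝ) (x : V) (t : ℝ) (ω : Ω) : Prop :=
  ∃ s ∈ M (Sum.inl x) ω, s ≤ t ∧ ∀ r ∈ M (Sum.inr x) ω, ¬ (s < r ∧ r ≤ t)

/-- The ball of radius `n` around `o` in the graph distance. -/
def ball (G : SimpleGraph V) (o : V) (n : ℕ) : Set V := {x | G.dist o x ≤ n}

/-- Positive density: the lower limit of the proportion of the vertices of `D` in the balls of
radius `n` around `o` is positive, for every `o`. -/
def PosDensity (G : SimpleGraph V) (D : Set V) : Prop :=
  ∀ o : V, 0 < liminf (fun n : ℕ => ((D ∩ ball G o n).ncard : ℝ) / ((ball G o n).ncard : ℝ)) atTop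

end Pool.Agent.H948.SF
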