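import Pool.Agent.H948.SF.Defs

/-!
# Environments

The marks of a label in the window `(k, k + 1]` are given by a cell: a number `n` and positions
`U 0, U 1, …` in `(0, 1]`; the marks are `k + U l`, `l < n`.
-/

namespace Pool.Agent.H948.SF

open MeasureTheory ProbabilityTheory Set Filter
open scoped ENNReal NNReal Nat Topology

/-- Positions. -/
abbrev U1 : Type := ↥(Ioc (0 : ℝ) 1)

/-- The uniform law on the positions. -/
noncomputable def unif : Measure U1 := Measure.comap Subtype.val (volume : Measure ℝ)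

instance instProbU1 : IsProbabilityMeasure unif := by
  constructor
  rw [unif, Measure.comap_apply Subtype.val Subtype.val_injective
    (fun s hs => MeasurableSet.subtype_image measurableSet_Ioc hs) _ MeasurableSet.univ,
    image_univ, Subtype.range_coe, Real.volume_Ioc]
  simp

/-- The marks in one window: number and positions. -/
abbrev Cell : Type := ℕ × (ℕ → U1)

/-- Poisson number of marks, independent uniform positions. -/
noncomputable def cellLaw (r : ℝ) : Measure Cell :=
  (poissonMeasure r.toNNReal).prod (Measure.infinitePi fun _ : ℕ => unif)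

instance instProbCell (r : ℝ) : IsProbabilityMeasure (cellLaw r) := by
  unfold cellLaw; infer_instance

/-- Environments: a cell for every label and every window `k : ℤ`, i.e. `(k, k + 1]`. -/
abbrev Env (ι : Type) : Type := ι × ℤ → Cell

/-- The law of the environment for the rates `r`. -/
noncomputable def envLaw {ι : Type} (r : ι → ℝ) : Measure (Env ι) :=
  Measure.infinitePi fun i : ι × ℤ => cellLaw (r i.1)

instance instProbEnv {ι : Type} (r : ι → ℝ) : IsProbabilityMeasure (envLaw r) := by
  unfold envLaw; infer_instance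

/-- The marks of the label `i`. -/
def marks {ι : Type} (ω : Env ι) (i : ι) : Set ℝ :=
  {t | ∃ (k : ℤ) (l : ℕ), l < (ω (i, k)).1 ∧ t = k + ((ω (i, k)).2 l : ℝ)}

/-- The law of the environment of the contact process. -/
noncomputable def mu (V : Type) (lam : ℝ) : Measure (Env (Lab V)) := envLaw (contactRate lam)

instance instProbMu (V : Type) (lam : ℝ) : IsProbabilityMeasure (mu V lam) := by
  unfold mu; infer_instance

/-- Infection path in the environment `ω`, from `x` at time `s` to `y` at time `t`. -/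
def PE {V : Type} (G : SimpleGraph V) (ω : Env (Lab V)) (x : V) (s : ℝ) (y : V) (t : ℝ) : Prop :=
  Path G (fun v => marks ω (Sum.inr v)) (fun e => marks ω (Sum.inl e)) x s y t

/-- Infection path between integer times. -/
def Con {V : Type} (G : SimpleGraph V) (ω : Env (Lab V)) (x : V) (k : ℤ) (y : V) (l : ℤ) : Prop :=
  PE G ω x (k : ℝ) y (l : ℝ)

/-- The environment seen from `Φ` and from time `k0`. -/
def pull {A B : Type} (Φ : A → B) (k0 : ℤ) (ω : Env (Lab B)) : Env (Lab A) := fun i =>
  match i.1 with
  | Sum.inl e => ω (Sum.inl (e.map Φ), i.2 + k0)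
  | Sum.inr x => ω (Sum.inr (Φ x), i.2 + k0)

/-- Restriction of a graph to a set of vertices. -/
def Rs {V : Type} (G : SimpleGraph V) (S : Set V) : SimpleGraph V where
  Adj x y := G.Adj x y ∧ x ∈ S ∧ y ∈ S
  symm := ⟨fun _ _ h => ⟨h.1.symm, h.2.2, h.2.1⟩⟩
  loopless := ⟨fun _ h => G.loopless.irrefl _ h.1⟩

/-- The labels of the windows `k, …, l - 1` which can be used by paths of `G` started in `x`. -/
def Use {V : Type} (G : SimpleGraph V) (x : V) (k l : ℤ) : Set (Lab V × ℤ) :=
  {i | k ≤ i.2 ∧ i.2 < l ∧ ((∃ u v, G.Adj u v ∧ i.1 = Sum.inl s(u, v)) ∨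
    (∃ u, (u = x ∨ ∃ v, G.Adj u v) ∧ i.1 = Sum.inr u))}

/-- Vertices of the rooted tree in which every vertex has `e + 2` children: the root is `[]`, the
children of `w` are `a :: w`; the descendants of `w` are `u ++ w`. -/
abbrev W (e : ℕ) : Type := List (Fin (e + 2))

/-- The rooted tree. -/
def TW (e : ℕ) : SimpleGraph (W e) where
  Adj u v := (∃ a, u = a :: v) ∨ ∃ a, v = a :: u
  symm := ⟨fun _ _ h => h.symm⟩
  loopless := ⟨fun u h => by
    rcases h with ⟨a, h⟩ | ⟨a, h⟩ <;> simpa using congrArg List.length h⟩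

/-- The tree up to level `R`. -/
def TR (e R : ℕ) : SimpleGraph (W e) := Rs (TW e) {w | w.length ≤ R}

/-- Lower bound for the probability that the infection is handed over from a vertex at time `k`
to a neighbour at time `k + 1`. -/
noncomputable def hc (lam : ℝ) : ℝ := Real.exp (-2) * (1 - Real.exp (-lam))

/-- Mean number of the vertices which are connected to the root through `n` windows. -/
noncomputable def bb (e : ℕ) (lam : ℝ) (n : ℕ) : ℝ≥0∞ :=
  ∑' w : W e, mu (W e) lam {ω | Con (TW e) ω w (-(n : ℤ)) [] 0}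

/-- The same inside the first `R` levels. -/
noncomputable def bR (e : ℕ) (lam : ℝ) (R n : ℕ) : ℝ≥0∞ :=
  ∑' w : W e, mu (W e) lam {ω | Con (TR e R) ω w (-(n : ℤ)) [] 0}

/-- The region of a block: the root `[]` and the descendants of `[0]` up to level `M`. -/
def Bset (e M : ℕ) : Set (W e) := {w | w = [] ∨ ((∃ u, w = u ++ [0]) ∧ w.length ≤ M)}

/-- The last level of a block: the roots of the next blocks. -/
def Lset (e M : ℕ) : Set (W e) := {w | (∃ u, w = u ++ [0]) ∧ w.length = M}

/-- The block of the vertex `c` and the windows `(t - 1) τ, …, t τ - 1` connects `w ++ c` at time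
`(t - 1) τ` to `c` at time `t τ`. -/
def Blk (e M τ : ℕ) (ω : Env (Lab (W e))) (c : W e) (t : ℤ) (w : W e) : Prop :=
  Con (Rs (TW e) ((· ++ c) '' Bset e M)) ω (w ++ c) ((t - 1) * τ) c (t * τ)

/-- There is a backward chain of `i` blocks from `c` at time `t τ`. -/
def Sv (e M τ : ℕ) (ω : Env (Lab (W e))) : ℕ → W e → ℤ → Prop
  | 0, _, _ => True
  | i + 1, c, t => ∃ w ∈ Lset e M, Blk e M τ ω c t w ∧ Sv e M τ ω i (w ++ c) (t - 1)

/-- The type of a vertex: `0`: delivery vertex; `1`: mouth; `2 + i`: phase `i` of a block. -/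
def st (e M : ℕ) : W e → ℕ
  | [] => 0
  | a :: w =>
    match st e M w with
    | 0 => if a.val ≤ 1 then 1 else 0
    | 1 => if a = 0 then 2 else 0
    | 2 => if a = 0 then 3 else 0
    | s + 3 => if s + 2 = M then 2 else s + 4

/-- The child used in the period `j`. -/
def par (e : ℕ) (j : ℤ) : Fin (e + 2) := if j % 2 = 0 then 0 else 1

/-- The event `G (v, j)`: the grandchild `z = 0 :: a :: v` has infinite backward chains of blocks
from time `j τ`, it hands over to `y = a :: v` at time `j τ + 1`, and `y` has no recovery in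
`(j τ + 1, (j + 1) τ + 1]`. Here `a = par e j`. -/
def Gev (e M τ : ℕ) (ω : Env (Lab (W e))) (v : W e) (j : ℤ) : Prop :=
  (∀ i, Sv e M τ ω i (0 :: par e j :: v) j) ∧
  Con (Rs (TW e) {0 :: par e j :: v, par e j :: v}) ω (0 :: par e j :: v) (j * τ)
    (par e j :: v) (j * τ + 1) ∧
  ∀ r ∈ marks ω (Sum.inr (par e j :: v)), ¬ ((j : ℝ) * τ + 1 < r ∧ r ≤ (j + 1) * τ + 1)

/-- The configuration `Upper` in an environment. -/
def UpE {V : Type} (G : SimpleGraph V) (ω : Env (Lab V)) (x : V) (t : ℝ) : Prop :=
  ∃ y, (∀ s : ℝ, s < 0 → ∃ y', PE G ω y' s y 0) ∧ PE G ω y 0 x t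

end Pool.Agent.H948.SF
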