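import Pool.Agent.H948.SF.Base

/-!
# Final assembly
-/

namespace Pool.Agent.H948.SF

open MeasureTheory ProbabilityTheory Set Filter
open scoped ENNReal NNReal Nat Topology

/-- The canonical Poisson family. -/
theorem canonical (hpois : S_POIS) (V : Type) (lam : ℝ) (hlam : 0 ≤ lam) :
    IsPoissonFamily (mu V lam) (contactRate lam) (fun (i : Lab V) (ω : Env (Lab V)) => marks ω i) := by
  refine hpois (Lab V) (Env (Lab V)) (mu V lam) (contactRate lam) (fun i ω => ω i) ?_ ?_ ?_ ?_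
  · rintro (_ | _)
    · exact hlam
    · exact zero_le_one
  · exact fun i => measurable_pi_apply i
  · have := iIndepFun_infinitePi (P := fun i : Lab V × ℤ => cellLaw (contactRate lam i.1))
      (X := fun _ c => c) (fun _ => measurable_id)
    exact this
  · intro i
    exact Measure.infinitePi_map_eval (μ := fun i : Lab V × ℤ => cellLaw (contactRate lam i.1)) i

theorem exists_surv (hpois : S_POIS) {V : Type} [Countable V] (G : SimpleGraph V) (lam : ℝ)
    (h : lamC G < ENNReal.ofReal lam) :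
    0 < lam ∧ ∃ o, mu V lam {ω | ∀ n : ℕ, ∃ y, Con G ω y (-(n : ℤ)) o 0} ≠ 0 := by
  have hlam : 0 < lam := by
    by_contra hc
    rw [ENNReal.ofReal_of_nonpos (not_lt.1 hc)] at h
    simp at h
  refine ⟨hlam, ?_⟩
  by_contra hcon
  push Not at hcon
  have htriv : UpperTrivial G lam := by
    refine ⟨Env (Lab V), inferInstance, mu V lam, inferInstance, fun i ω => marks ω i,
      canonical hpois V lam hlam.le, ?_⟩
    refine measure_mono_null ?_ (measure_iUnion_null hcon)
    rintro ω ⟨x, hx⟩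
    refine mem_iUnion.2 ⟨x, ?_⟩
    intro n
    rcases Nat.eq_zero_or_pos n with rfl | hn
    · refine ⟨x, ?_⟩
      have : Con G ω x 0 x 0 := PE.refl x _
      simpa using this
    · obtain ⟨y, hy⟩ := hx (-(n : ℝ)) (by simpa using hn)
      refine ⟨y, ?_⟩
      show PE G ω y ((-(n : ℤ) : ℤ) : ℝ) x ((0 : ℤ) : ℝ)
      push_cast
      exact hy
  have : ENNReal.ofReal lam ≤ lamC G := le_sSup ⟨lam, hlam.le, htriv, rfl⟩
  exact absurd h (not_lt.2 this)

/-- Lifting labels. -/
def lift {A B : Type} (Φ : A → B) (i : Lab A × ℤ) : Lab B × ℤ :=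
  match i.1 with
  | Sum.inl e => (Sum.inl (e.map Φ), i.2)
  | Sum.inr x => (Sum.inr (Φ x), i.2)

theorem lift_inl {A B : Type} (Φ : A → B) (e : Sym2 A) (t : ℤ) :
    lift Φ (Sum.inl e, t) = (Sum.inl (e.map Φ), t) := rfl

theorem lift_inr {A B : Type} (Φ : A → B) (x : A) (t : ℤ) :
    lift Φ (Sum.inr x, t) = (Sum.inr (Φ x), t) := rfl

theorem lift_injective {A B : Type} {Φ : A → B} (hΦ : Function.Injective Φ) :
    Function.Injective (lift Φ) := by
  rintro ⟨i, t⟩ ⟨i', t'⟩ h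
  rcases i with e | x <;> rcases i' with e' | x'
  · rw [lift_inl, lift_inl] at h
    simp only [Prod.mk.injEq, Sum.inl.injEq] at h
    rw [Sym2.map.injective hΦ h.1, h.2]
  · rw [lift_inl, lift_inr] at h; simp at h
  · rw [lift_inl, lift_inr] at h; simp at h
  · rw [lift_inr, lift_inr] at h
    simp only [Prod.mk.injEq, Sum.inr.injEq] at h
    rw [hΦ h.1, h.2]

theorem pull_apply_eq {A B : Type} (Φ : A → B) (η : Env (Lab B)) (i : Lab A × ℤ) :
    pull Φ 0 η i = η (lift Φ i) := by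
  rcases i with ⟨e | x, t⟩ <;> simp [pull, lift]

theorem main (hrix : S_RIX) (hpois : S_POIS) (hcoup : S_COUP) (htree : S_TREE) (hsurv : S_SURV)
    (hpig : S_PIG) (hline : S_LINE) (hgw : S_GW) (hgev : S_GEV) (hgeo : S_GEO) (hdom : S_DOM)
    (hdens : S_DENS) (V : Type) (G : SimpleGraph V) (d : ℕ) (hd : 2 ≤ d) (hG : G.IsTree)
    (hdeg : ∀ x, (G.neighborSet x).encard = (d : ℕ∞) + 1) (lam : ℝ)
    (hlam : lamC G < ENNReal.ofReal lam) :
    ∃ (D : Set V) (α : ℝ), PosDensity G D ∧ 0 < α ∧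
      ∃ (Ω : Type) (_ : MeasurableSpace Ω) (P : Measure Ω) (_ : IsProbabilityMeasure P)
        (N : Lab V → Ω → Set ℝ) (M : V ⊕ V → Ω → Set ℝ),
        IsPoissonFamily P (contactRate lam) N ∧ IsPoissonFamily P (spinRate α) M ∧
        ∀ ω, ∀ x ∈ D, ∀ t : ℝ, 0 ≤ t → Spin M x t ω → Upper G N x t ω := by
  obtain ⟨e, rfl⟩ : ∃ e, d = e + 2 := ⟨d - 2, by omega⟩
  have hdeg' : ∀ x, (G.neighborSet x).encard = (e : ℕ∞) + 3 := by
    intro x
    rw [hdeg x]
    push_cast
    rw [add_assoc]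
    norm_num
  obtain ⟨hV, hemb⟩ := htree e V G hG hdeg'
  have := hV
  obtain ⟨hlam0, o, ho⟩ := exists_surv hpois G lam hlam
  have hgrow := hsurv e lam V G o hlam0 hG hdeg' ho
  obtain ⟨M, τ, hM, hτ, hsum⟩ := hline e lam hlam0 (hpig e lam hlam0 hgrow)
  obtain ⟨ε, hε, hSv⟩ := hgw e lam M τ hlam0 hM hτ hsum
  obtain ⟨hmeas, p0, hp0, hprob⟩ := hgev e lam M τ ε hlam0 hM hτ hε hSv
  obtain ⟨Supp, hdis, hdep, hexr, hexe⟩ := hgeo e M τ hM hτ
  obtain ⟨Φ, hinj, hadj, -, -⟩ := hemb o []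
  have hleft : Function.LeftInverse (Function.invFun Φ) Φ := Function.leftInverse_invFun hinj
  have hτZ : (0 : ℤ) < τ := by exact_mod_cast hτ
  obtain ⟨α, hα, Ω, mΩ, P, hP, N, Mk, hN, hMk, hω⟩ := hcoup V lam (Φ '' {u | st e M u = 0}) τ
    (fun x k => s(Φ (par e ((k - 1) / τ) :: Function.invFun Φ x), x))
    (fun x j => {η | Gev e M τ (pull Φ 0 η) (Function.invFun Φ x) j})
    (fun x j => lift Φ '' Supp (Function.invFun Φ x) j) p0 hlam0 hτ hp0
    (by
      rintro _ ⟨u, hu, rfl⟩ j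
      exact (hrix.2 (W e) V lam Φ 0 hinj).measurable (hmeas _ j))
    (by
      rintro _ ⟨u, hu, rfl⟩ j ω ω' h
      simp only [hleft u] at h ⊢
      refine hdep u j hu _ _ ?_
      intro i hi
      rw [pull_apply_eq, pull_apply_eq]
      exact h _ ⟨i, hi, rfl⟩)
    (by
      rintro _ ⟨u, hu, rfl⟩ _ ⟨u', hu', rfl⟩ j j' hne
      rw [hleft u, hleft u']
      rw [disjoint_image_iff (lift_injective hinj)]
      refine hdis u u' j j' hu hu' ?_
      rintro h
      simp only [Prod.mk.injEq] at h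
      exact hne (by rw [h.1, h.2]))
    (by
      rintro _ ⟨u, hu, rfl⟩ j _ ⟨u', hu', rfl⟩ t
      rw [hleft u, hleft u']
      constructor
      · rintro ⟨i, hi, h⟩
        have : i = (Sum.inr u', t) := lift_injective hinj (by rw [h, lift_inr])
        exact hexr u j u' t hu hu' (this ▸ hi)
      · rintro ⟨i, hi, h⟩
        have : i = (Sum.inl s(par e ((t - 1) / τ) :: u', u'), t) :=
          lift_injective hinj (by rw [h, lift_inl]; rfl)
        exact hexe u j u' _ t hu hu' (this ▸ hi))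
    (by
      rintro _ ⟨u, hu, rfl⟩ _ ⟨u', hu', rfl⟩ t h
      simp only [hleft u, hleft u'] at h
      rcases Sym2.eq_iff.1 h with ⟨_, h2⟩ | ⟨h1, h2⟩
      · exact h2
      · have e1 := hinj h1
        have e2 := hinj h2
        have l1 := congrArg List.length e1
        have l2 := congrArg List.length e2
        simp only [List.length_cons] at l1 l2
        omega)
    (by
      rintro _ ⟨u, hu, rfl⟩ j
      have := (hrix.2 (W e) V lam Φ 0 hinj).measure_preimage
        (hmeas (Function.invFun Φ (Φ u)) j).nullMeasurableSet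
      have h2 := hprob (Function.invFun Φ (Φ u)) j
      rw [← this] at h2
      exact h2)
  refine ⟨Φ '' {u | st e M u = 0}, α, hdens e V G Φ M hG hdeg' hinj hadj hM, hα, Ω, mΩ, P, hP,
    N, Mk, hN, hMk, ?_⟩
  rintro ω _ ⟨u, hu, rfl⟩ t ht ⟨s, hs, hst, hnr⟩
  obtain ⟨η, hη1, hη2, hη3⟩ := hω ω
  obtain ⟨k, j, hk1, hk2, hk3, hk4, hk5, hk6⟩ := hη3 (Φ u) ⟨u, hu, rfl⟩ s hs
  have hj : (k - 1) / (τ : ℤ) = j := by
    rw [Int.ediv_eq_iff_of_pos hτZ]
    constructor
    · linarith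
    · linarith
  simp only [hleft u, hj] at hk5
  have hk6' : Gev e M τ (pull Φ 0 η) u j := by
    have : Gev e M τ (pull Φ 0 η) (Function.invFun Φ (Φ u)) j := hk6
    rwa [hleft u] at this
  have hup : UpE (TW e) (pull Φ 0 η) u t := by
    refine hdom e M τ (pull Φ 0 η) u j s t hM hτ hk6' ?_ ?_ ?_ ht hst ?_
    · have : ((j : ℤ) * τ + 1 : ℝ) ≤ k := by exact_mod_cast hk3
      linarith
    · have : (k : ℝ) ≤ ((j : ℝ) + 1) * τ := by exact_mod_cast hk4
      linarith
    · rw [marks_pull_inl]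
      simpa using hk5
    · intro r hr
      rw [marks_pull_inr] at hr
      have : r ∈ Mk (Sum.inr (Φ u)) ω := by
        rw [hη2 _ ⟨u, hu, rfl⟩]
        simpa using hr
      exact hnr r this
  have hmap : ∀ {a b : W e} {s t : ℝ}, PE (TW e) (pull Φ 0 η) a s b t →
      Path G (fun v => N (Sum.inr v) ω) (fun e => N (Sum.inl e) ω) (Φ a) s (Φ b) t := by
    intro a b s t h
    have := Path.map (k0 := 0) (Φ := Φ) (GB := G) (recB := fun v => N (Sum.inr v) ω)
      (trB := fun e => N (Sum.inl e) ω) h (fun u v => (hadj u v).1) ?_ ?_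
    · simpa using this
    · intro u r hr
      rw [marks_pull_inr]
      simp only [add_zero, Int.cast_zero] at hr ⊢
      rw [hη1] at hr
      exact hr
    · intro u v r _ hr
      rw [marks_pull_inl] at hr
      simp only [add_zero, Int.cast_zero] at hr ⊢
      rw [hη1]
      exact hr
  obtain ⟨y, hy1, hy2⟩ := hup
  refine ⟨Φ y, ?_, hmap hy2⟩
  intro s hs
  obtain ⟨y', hy'⟩ := hy1 s hs
  exact ⟨Φ y', hmap hy'⟩

end Pool.Agent.H948.SF
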