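import Pool.Agent.H948.SF.Stm

set_option autoImplicit false

namespace Pool.Agent.H127.SF

open MeasureTheory ProbabilityTheory Set Filter
open scoped ENNReal NNReal Nat Topology
open Pool.Agent.H948.SF

/-- indices of the cells -/
abbrev JJ (V : Type) : Type := (Lab V × ℤ) ⊕ ((V × ℤ) ⊕ ((V ⊕ V) × ℤ))

/-- rates -/
noncomputable def rr {V : Type} (lam α : ℝ) : JJ V → ℝ
  | Sum.inl i => contactRate lam i.1
  | Sum.inr (Sum.inl _) => 1
  | Sum.inr (Sum.inr i) => spinRate α i.1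

/-- the law -/
noncomputable def PP (V : Type) (lam α : ℝ) : Measure (JJ V → Cell) :=
  Measure.infinitePi fun j => cellLaw (rr lam α j)

instance instPP (V : Type) (lam α : ℝ) : IsProbabilityMeasure (PP V lam α) := by
  unfold PP; infer_instance

theorem PP_eval {V : Type} (lam α : ℝ) (j : JJ V) :
    (PP V lam α).map (fun ω => ω j) = cellLaw (rr lam α j) :=
  Measure.infinitePi_map_eval (μ := fun j : JJ V => cellLaw (rr lam α j)) j

theorem PP_coord {V T : Type} (lam α : ℝ) (f : T → JJ V) (hf : Function.Injective f) :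
    iIndepFun (fun t (ω : JJ V → Cell) => ω (f t)) (PP V lam α) :=
  (iIndepFun_infinitePi (P := fun j : JJ V => cellLaw (rr lam α j)) (X := fun _ ω => ω)
    (fun _ => measurable_id)).precomp hf

theorem cell_va (r : ℝ) : (cellLaw r).map (fun c => c.2 0) = unif := by
  have e : (fun c : Cell => c.2 0) = (fun u : ℕ → U1 => u 0) ∘ Prod.snd := rfl
  rw [e, ← Measure.map_map (measurable_pi_apply 0) measurable_snd, cellLaw,
    measurePreserving_snd.map_eq, Measure.infinitePi_map_eval]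

theorem PP_eta {V : Type} (lam α : ℝ) :
    (PP V lam α).map (fun ω (i : Lab V × ℤ) => ω (Sum.inl i)) = mu V lam :=
  Measure.map_infinitePi_infinitePi_of_inj (P := fun j : JJ V => cellLaw (rr lam α j))
    Sum.inl_injective

theorem meas_eta {V : Type} :
    Measurable (fun (ω : JJ V → Cell) (i : Lab V × ℤ) => ω (Sum.inl i)) :=
  measurable_pi_lambda _ fun _ => measurable_pi_apply _

/-- the windows of the block `j` -/
def ww (τ : ℕ) (j : ℤ) (t : Fin τ) : ℤ := j * τ + 1 + ((t : ℕ) : ℤ)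

theorem ww_inj {τ : ℕ} {j j' : ℤ} {t t' : Fin τ} (h : ww τ j t = ww τ j' t') : j = j' ∧ t = t' := by
  unfold ww at h
  have h1 := t.isLt
  have h2 := t'.isLt
  have h3 : (j - j') * (τ : ℤ) = ((t' : ℕ) : ℤ) - ((t : ℕ) : ℤ) := by linarith
  have h4 : j = j' := by
    by_contra hne
    rcases lt_or_gt_of_ne hne with h5 | h5
    · nlinarith
    · nlinarith
  subst h4
  refine ⟨rfl, Fin.ext ?_⟩
  rw [sub_self, zero_mul] at h3
  omega

theorem ww_sur {τ : ℕ} (hτ : 1 ≤ τ) (k : ℤ) : ∃ (j : ℤ) (t : Fin τ), k = ww τ j t := by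
  have h0 : (0 : ℤ) < τ := by exact_mod_cast hτ
  refine ⟨(k - 1) / τ, ⟨((k - 1) % τ).toNat, ?_⟩, ?_⟩
  · have := Int.emod_lt_of_pos (k - 1) h0
    have := Int.emod_nonneg (k - 1) h0.ne'
    omega
  · unfold ww
    have h1 := Int.emod_nonneg (k - 1) h0.ne'
    have h2 := Int.mul_ediv_add_emod (k - 1) τ
    simp only [Int.toNat_of_nonneg h1]
    linarith [mul_comm (τ : ℤ) ((k - 1) / τ)]

/-- the rate of the accepted marks -/
noncomputable def al (lam p0 : ℝ) (τ : ℕ) : ℝ := lam * p0 * Real.exp (-(lam * τ))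

section

variable {V : Type} {lam : ℝ} {D : Set V} {τ : ℕ} {ed : V → ℤ → Sym2 V}
  {Gv : V → ℤ → Set (Env (Lab V))} {Sp : V → ℤ → Set (Lab V × ℤ)} {p0 : ℝ}

/-- the cells of the block `(v, j)` -/
def CC (ed : V → ℤ → Sym2 V) (v : V) (j : ℤ) (t : Fin τ) (ω : JJ V → Cell) : Cell :=
  ω (Sum.inl (Sum.inl (ed v (ww τ j t)), ww τ j t))

/-- the good event -/
def GG (Gv : V → ℤ → Set (Env (Lab V))) (v : V) (j : ℤ) : Set (JJ V → Cell) :=
  {ω | (fun i => ω (Sum.inl i)) ∈ Gv v j}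

/-- the additional variable -/
def VV (v : V) (j : ℤ) (ω : JJ V → Cell) : U1 := (ω (Sum.inr (Sum.inl (v, j)))).2 0

theorem meas_CC (v : V) (j : ℤ) (t : Fin τ) : Measurable (CC ed v j t) := measurable_pi_apply _

theorem meas_VV (v : V) (j : ℤ) : Measurable (VV v j) :=
  (measurable_pi_apply 0).comp (measurable_snd.comp (measurable_pi_apply _))

theorem three (h2 : S_BLOCK) {J : Type} (r : J → ℝ) (A : Fin 3 → Set (J → Cell))
    (I : Fin 3 → Set J) (hA : ∀ k, MeasurableSet (A k))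
    (hdep : ∀ k, ∀ ω ω' : J → Cell, (∀ j ∈ I k, ω j = ω' j) → (ω ∈ A k ↔ ω' ∈ A k))
    (hdisj : ∀ k k', k ≠ k' → Disjoint (I k) (I k')) :
    (Measure.infinitePi fun j => cellLaw (r j)) (A 0 ∩ A 1 ∩ A 2) =
      (Measure.infinitePi fun j => cellLaw (r j)) (A 0) *
      (Measure.infinitePi fun j => cellLaw (r j)) (A 1) *
      (Measure.infinitePi fun j => cellLaw (r j)) (A 2) := by
  have key := h2 J r (Fin 3) (fun _ => Prop) (fun k ω => ω ∈ A k) I
    (fun k => (measurableSet_setOfPred (p := fun ω => ω ∈ A k)).1 (hA k))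
    (fun k ω ω' h => propext (hdep k ω ω' h)) hdisj
  have key2 := key.measure_inter_preimage_eq_mul Finset.univ (sets := fun _ => {True})
    (fun _ _ => MeasurableSpace.measurableSet_top)
  have e : ∀ k, (fun ω => ω ∈ A k) ⁻¹' {True} = A k := fun k => by ext ω; simp
  simp only [e, Fin.prod_univ_three] at key2
  rw [← key2]
  congr 1
  ext ω
  simp only [mem_inter_iff, mem_iInter, Finset.mem_univ, forall_const, Fin.forall_fin_succ]
  simp [and_assoc]

theorem block (h2 : S_BLOCK) (h4 : S_ACC) (hlam : 0 < lam) (hp0 : 0 < p0)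
    (hm : ∀ v ∈ D, ∀ j, MeasurableSet (Gv v j))
    (hdep : ∀ v ∈ D, ∀ j, ∀ ω ω' : Env (Lab V), (∀ i ∈ Sp v j, ω i = ω' i) →
      (ω ∈ Gv v j ↔ ω' ∈ Gv v j))
    (hex : ∀ v ∈ D, ∀ j, ∀ v' ∈ D, ∀ t, (Sum.inr v', t) ∉ Sp v j ∧ (Sum.inl (ed v' t), t) ∉ Sp v j)
    (hp : ∀ v ∈ D, ∀ j, ENNReal.ofReal p0 ≤ mu V lam (Gv v j)) (v : V) (hv : v ∈ D) (j : ℤ) :
    ∃ C' : Fin τ → (JJ V → Cell) → Cell, (∀ t, Measurable (C' t)) ∧
      iIndepFun C' (PP V lam (al lam p0 τ)) ∧
      (∀ t, (PP V lam (al lam p0 τ)).map (C' t) = cellLaw (al lam p0 τ)) ∧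
      (∀ ω t, C' t ω = CC ed v j t ω ∨ C' t ω = (0, (CC ed v j t ω).2)) ∧
      (∀ ω, ω ∉ GG Gv v j → ∀ t, (C' t ω).1 = 0) ∧
      (∀ ω ω', (∀ t : Fin τ, CC ed v j t ω = CC ed v j t ω') → (ω ∈ GG Gv v j ↔ ω' ∈ GG Gv v j) →
        VV v j ω = VV v j ω' → ∀ t, C' t ω = C' t ω') := by
  have hmG : MeasurableSet (GG Gv v j) := meas_eta (hm v hv j)
  have hPG : PP V lam (al lam p0 τ) (GG Gv v j) = mu V lam (Gv v j) := by
    rw [← PP_eta lam (al lam p0 τ), Measure.map_apply meas_eta (hm v hv j)]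
    rfl
  have hne : PP V lam (al lam p0 τ) (GG Gv v j) ≠ ∞ := measure_ne_top _ _
  have hple : p0 ≤ (PP V lam (al lam p0 τ) (GG Gv v j)).toReal := by
    rw [← ENNReal.ofReal_le_iff_le_toReal hne, hPG]
    exact hp v hv j
  refine h4 (Fin τ) (JJ V → Cell) (PP V lam (al lam p0 τ)) (CC ed v j) (GG Gv v j) (VV v j) lam
    (al lam p0 τ) (PP V lam (al lam p0 τ) (GG Gv v j)).toReal hlam ?_ (lt_of_lt_of_le hp0 hple) ?_
    (meas_CC v j) hmG (meas_VV v j) (ENNReal.ofReal_toReal hne).symm ?_ ?_ ?_ ?_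
  · unfold al; positivity
  · rw [Fintype.card_fin, al, mul_assoc, ← Real.exp_add, neg_add_cancel, Real.exp_zero, mul_one]
    exact mul_le_mul_of_nonneg_left hple hlam.le
  · intro t
    exact PP_eval lam _ _
  · have e : VV v j = (fun c : Cell => c.2 0) ∘ fun ω : JJ V → Cell => ω (Sum.inr (Sum.inl (v, j))) :=
      rfl
    have hm0 : Measurable (fun c : Cell => c.2 0) := (measurable_pi_apply 0).comp measurable_snd
    rw [e, ← Measure.map_map hm0 (measurable_pi_apply _), PP_eval, cell_va]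
  · refine PP_coord lam _ (fun t : Fin τ => Sum.inl (Sum.inl (ed v (ww τ j t)), ww τ j t)) ?_
    intro t t' h
    simp only [Sum.inl.injEq, Prod.mk.injEq] at h
    exact (ww_inj h.2).2
  · intro A B hA hB
    refine three h2 (rr lam (al lam p0 τ))
      ![{ω | (fun t => CC ed v j t ω) ∈ A}, GG Gv v j, {ω | VV v j ω ∈ B}]
      ![range fun t : Fin τ => Sum.inl (Sum.inl (ed v (ww τ j t)), ww τ j t), Sum.inl '' Sp v j,
        {Sum.inr (Sum.inl (v, j))}] ?_ ?_ ?_
    · intro k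
      fin_cases k
      · exact (measurable_pi_lambda _ fun t => meas_CC v j t) hA
      · exact hmG
      · exact meas_VV v j hB
    · intro k ω ω' h
      fin_cases k
      · have e : (fun t : Fin τ => CC ed v j t ω) = fun t => CC ed v j t ω' :=
          funext fun t => h _ ⟨t, rfl⟩
        change (fun t : Fin τ => CC ed v j t ω) ∈ A ↔ (fun t : Fin τ => CC ed v j t ω') ∈ A
        rw [e]
      · exact hdep v hv j _ _ fun i hi => h _ ⟨i, hi, rfl⟩
      · have e : VV v j ω = VV v j ω' := congrArg (fun c : Cell => c.2 0) (h _ rfl)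
        change VV v j ω ∈ B ↔ VV v j ω' ∈ B
        rw [e]
    · have d01 : Disjoint (range fun t : Fin τ =>
          (Sum.inl (Sum.inl (ed v (ww τ j t)), ww τ j t) : JJ V)) (Sum.inl '' Sp v j) := by
        rw [Set.disjoint_left]
        rintro x ⟨t, rfl⟩ ⟨y, hy, hyx⟩
        rw [Sum.inl.injEq] at hyx
        subst hyx
        exact (hex v hv j v hv _).2 hy
      have d02 : Disjoint (range fun t : Fin τ =>
          (Sum.inl (Sum.inl (ed v (ww τ j t)), ww τ j t) : JJ V)) {Sum.inr (Sum.inl (v, j))} := by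
        rw [Set.disjoint_left]
        rintro x ⟨t, rfl⟩ hx
        simp at hx
      have d12 : Disjoint (Sum.inl '' Sp v j : Set (JJ V)) {Sum.inr (Sum.inl (v, j))} := by
        rw [Set.disjoint_left]
        rintro x ⟨y, hy, rfl⟩ hx
        simp at hx
      intro k k' hk
      fin_cases k <;> fin_cases k' <;>
        first | exact (hk rfl).elim | exact d01 | exact d02 | exact d12 | exact d01.symm |
          exact d02.symm | exact d12.symm

open Classical in
/-- the cells, in blocks -/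
noncomputable def XX (D : Set V) (C' : V → ℤ → Fin τ → (JJ V → Cell) → Cell) :
    (V ⊕ V) × ℤ → Fin τ → (JJ V → Cell) → Cell
  | (Sum.inl v, j), t => if v ∈ D then C' v j t else fun ω => ω (Sum.inr (Sum.inr (Sum.inl v, ww τ j t)))
  | (Sum.inr v, j), t => if v ∈ D then fun ω => ω (Sum.inl (Sum.inr v, ww τ j t)) else
      fun ω => ω (Sum.inr (Sum.inr (Sum.inr v, ww τ j t)))

/-- the coordinates used by the blocks -/
def II (D : Set V) (ed : V → ℤ → Sym2 V) (Sp : V → ℤ → Set (Lab V × ℤ)) (τ : ℕ) :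
    (V ⊕ V) × ℤ → Set (JJ V)
  | (Sum.inl v, j) => {x | (v ∈ D ∧ ((∃ t : Fin τ, x = Sum.inl (Sum.inl (ed v (ww τ j t)), ww τ j t)) ∨
      x = Sum.inr (Sum.inl (v, j)) ∨ ∃ s ∈ Sp v j, x = Sum.inl s)) ∨
      (v ∉ D ∧ ∃ t : Fin τ, x = Sum.inr (Sum.inr (Sum.inl v, ww τ j t)))}
  | (Sum.inr v, j) => {x | (v ∈ D ∧ ∃ t : Fin τ, x = Sum.inl (Sum.inr v, ww τ j t)) ∨
      (v ∉ D ∧ ∃ t : Fin τ, x = Sum.inr (Sum.inr (Sum.inr v, ww τ j t)))}

theorem II_disj
    (hSp : ∀ v ∈ D, ∀ v' ∈ D, ∀ j j', (v, j) ≠ (v', j') → Disjoint (Sp v j) (Sp v' j'))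
    (hex : ∀ v ∈ D, ∀ j, ∀ v' ∈ D, ∀ t, (Sum.inr v', t) ∉ Sp v j ∧ (Sum.inl (ed v' t), t) ∉ Sp v j)
    (hed : ∀ v ∈ D, ∀ v' ∈ D, ∀ t, ed v t = ed v' t → v = v') (b b' : (V ⊕ V) × ℤ) (hb : b ≠ b') :
    Disjoint (II D ed Sp τ b) (II D ed Sp τ b') := by
  rw [Set.disjoint_left]
  intro x h h'
  obtain ⟨v | v, j⟩ := b <;> obtain ⟨v' | v', j'⟩ := b'
  · rcases h with ⟨hv, ⟨t, ht⟩ | ht | ⟨y, hy, ht⟩⟩ | ⟨hv, t, ht⟩ <;>
    rcases h' with ⟨hv', ⟨t', ht'⟩ | ht' | ⟨y', hy', ht'⟩⟩ | ⟨hv', t', ht'⟩ <;>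
    rw [ht] at ht' <;>
    simp only [Sum.inl.injEq, Sum.inr.injEq, Prod.mk.injEq, reduceCtorEq, false_and] at ht'
    · obtain ⟨h1, h2⟩ := ww_inj ht'.2
      rw [ht'.2] at ht'
      have h3 := hed v hv v' hv' _ ht'.1
      exact hb (by rw [h1, h3])
    · rw [← ht'] at hy'
      exact (hex v' hv' j' v hv _).2 hy'
    · exact hb (by rw [ht'.1, ht'.2])
    · rw [ht'] at hy
      exact (hex v hv j v' hv' _).2 hy
    · by_cases hne : (v, j) = (v', j')
      · rw [Prod.mk.injEq] at hne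
        exact hb (by rw [hne.1, hne.2])
      · rw [ht'] at hy
        exact Set.disjoint_left.1 (hSp v hv v' hv' j j' hne) hy hy'
    · exact hb (by rw [ht'.1, (ww_inj ht'.2).1])
  · rcases h with ⟨hv, ⟨t, ht⟩ | ht | ⟨y, hy, ht⟩⟩ | ⟨hv, t, ht⟩ <;>
    rcases h' with ⟨hv', t', ht'⟩ | ⟨hv', t', ht'⟩ <;>
    rw [ht] at ht' <;>
    simp only [Sum.inl.injEq, Sum.inr.injEq, Prod.mk.injEq, reduceCtorEq, false_and] at ht'
    rw [ht'] at hy
    exact (hex v hv j v' hv' _).1 hy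
  · rcases h with ⟨hv, t, ht⟩ | ⟨hv, t, ht⟩ <;>
    rcases h' with ⟨hv', ⟨t', ht'⟩ | ht' | ⟨y', hy', ht'⟩⟩ | ⟨hv', t', ht'⟩ <;>
    rw [ht] at ht' <;>
    simp only [Sum.inl.injEq, Sum.inr.injEq, Prod.mk.injEq, reduceCtorEq, false_and] at ht'
    rw [← ht'] at hy'
    exact (hex v' hv' j' v hv _).1 hy'
  · rcases h with ⟨hv, t, ht⟩ | ⟨hv, t, ht⟩ <;>
    rcases h' with ⟨hv', t', ht'⟩ | ⟨hv', t', ht'⟩ <;>
    rw [ht] at ht' <;>
    simp only [Sum.inl.injEq, Sum.inr.injEq, Prod.mk.injEq, reduceCtorEq, false_and] at ht'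
    · exact hb (by rw [ht'.1, (ww_inj ht'.2).1])
    · exact hb (by rw [ht'.1, (ww_inj ht'.2).1])

end

theorem s_coup (_h1 : S_RIX) (h2 : S_BLOCK) (h3 : S_POIS) (h4 : S_ACC) : S_COUP := by
  classical
  intro V _ lam D τ ed Gv Sp p0 hlam hτ hp0 hm hdep hSp hex hed hp
  have hα : 0 < al lam p0 τ := by unfold al; positivity
  have hb : ∀ (v : V) (j : ℤ), ∃ C' : Fin τ → (JJ V → Cell) → Cell, v ∈ D →
      (∀ t, Measurable (C' t)) ∧
      iIndepFun C' (PP V lam (al lam p0 τ)) ∧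
      (∀ t, (PP V lam (al lam p0 τ)).map (C' t) = cellLaw (al lam p0 τ)) ∧
      (∀ ω t, C' t ω = CC ed v j t ω ∨ C' t ω = (0, (CC ed v j t ω).2)) ∧
      (∀ ω, ω ∉ GG Gv v j → ∀ t, (C' t ω).1 = 0) ∧
      (∀ ω ω', (∀ t : Fin τ, CC ed v j t ω = CC ed v j t ω') → (ω ∈ GG Gv v j ↔ ω' ∈ GG Gv v j) →
        VV v j ω = VV v j ω' → ∀ t, C' t ω = C' t ω') := by
    intro v j
    by_cases hv : v ∈ D
    · obtain ⟨C', hC⟩ := block h2 h4 hlam hp0 hm hdep hex hp v hv j
      exact ⟨C', fun _ => hC⟩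
    · exact ⟨fun t ω => ω (Sum.inr (Sum.inl (v, j))), fun h => absurd h hv⟩
  choose C' hC using hb
  have mX : ∀ (b : (V ⊕ V) × ℤ) (t : Fin τ), Measurable (XX D C' b t) := by
    rintro ⟨v | v, j⟩ t
    · by_cases hv : v ∈ D
      · simp only [XX, if_pos hv]
        exact (hC v j hv).1 t
      · simp only [XX, if_neg hv]
        exact measurable_pi_apply _
    · by_cases hv : v ∈ D
      · simp only [XX, if_pos hv]
        exact measurable_pi_apply _
      · simp only [XX, if_neg hv]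
        exact measurable_pi_apply _
  have hin : ∀ b : (V ⊕ V) × ℤ, iIndepFun (XX D C' b) (PP V lam (al lam p0 τ)) := by
    rintro ⟨v | v, j⟩
    · by_cases hv : v ∈ D
      · have e : XX D C' (Sum.inl v, j) = C' v j := by
          funext t; simp only [XX, if_pos hv]
        rw [e]
        exact (hC v j hv).2.1
      · have e : XX D C' (Sum.inl v, j) =
            fun t ω => ω (Sum.inr (Sum.inr (Sum.inl v, ww τ j t))) := by
          funext t; simp only [XX, if_neg hv]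
        rw [e]
        refine PP_coord lam _ _ fun t t' h => ?_
        simp only [Sum.inr.injEq, Prod.mk.injEq, true_and] at h
        exact (ww_inj h).2
    · by_cases hv : v ∈ D
      · have e : XX D C' (Sum.inr v, j) = fun t ω => ω (Sum.inl (Sum.inr v, ww τ j t)) := by
          funext t; simp only [XX, if_pos hv]
        rw [e]
        refine PP_coord lam _ _ fun t t' h => ?_
        simp only [Sum.inl.injEq, Prod.mk.injEq, true_and] at h
        exact (ww_inj h).2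
      · have e : XX D C' (Sum.inr v, j) =
            fun t ω => ω (Sum.inr (Sum.inr (Sum.inr v, ww τ j t))) := by
          funext t; simp only [XX, if_neg hv]
        rw [e]
        refine PP_coord lam _ _ fun t t' h => ?_
        simp only [Sum.inr.injEq, Prod.mk.injEq, true_and] at h
        exact (ww_inj h).2
  have hlaw : ∀ (b : (V ⊕ V) × ℤ) (t : Fin τ), (PP V lam (al lam p0 τ)).map (XX D C' b t) =
      cellLaw (spinRate (al lam p0 τ) b.1) := by
    rintro ⟨v | v, j⟩ t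
    · by_cases hv : v ∈ D
      · simp only [XX, if_pos hv]
        exact (hC v j hv).2.2.1 t
      · simp only [XX, if_neg hv]
        exact PP_eval _ _ _
    · by_cases hv : v ∈ D
      · simp only [XX, if_pos hv]
        exact PP_eval _ _ _
      · simp only [XX, if_neg hv]
        exact PP_eval _ _ _
  have hout : iIndepFun (fun (b : (V ⊕ V) × ℤ) ω => (XX D C' b · ω)) (PP V lam (al lam p0 τ)) := by
    refine h2 (JJ V) (rr lam (al lam p0 τ)) ((V ⊕ V) × ℤ) (fun _ => Fin τ → Cell) _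
      (II D ed Sp τ) (fun b => measurable_pi_lambda _ fun t => mX b t) ?_
      (fun b b' hbb => II_disj hSp hex hed b b' hbb)
    rintro ⟨v | v, j⟩ ω ω' h
    · by_cases hv : v ∈ D
      · funext t
        simp only [XX, if_pos hv]
        refine (hC v j hv).2.2.2.2.2 ω ω' (fun t => h _ (Or.inl ⟨hv, Or.inl ⟨t, rfl⟩⟩)) ?_ ?_ t
        · exact hdep v hv j _ _ fun i hi => h _ (Or.inl ⟨hv, Or.inr (Or.inr ⟨i, hi, rfl⟩)⟩)
        · exact congrArg (fun c : Cell => c.2 0) (h _ (Or.inl ⟨hv, Or.inr (Or.inl rfl)⟩))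
      · funext t
        simp only [XX, if_neg hv]
        exact h _ (Or.inr ⟨hv, t, rfl⟩)
    · by_cases hv : v ∈ D
      · funext t
        simp only [XX, if_pos hv]
        exact h _ (Or.inl ⟨hv, t, rfl⟩)
      · funext t
        simp only [XX, if_neg hv]
        exact h _ (Or.inr ⟨hv, t, rfl⟩)
  have hall := iIndepFun_uncurry' mX hout hin
  choose jj tt hjt using ww_sur hτ
  have hinj : Function.Injective fun p : (V ⊕ V) × ℤ => (((p.1, jj p.2), tt p.2) :
      ((V ⊕ V) × ℤ) × Fin τ) := by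
    rintro ⟨i, k⟩ ⟨i', k'⟩ h
    simp only [Prod.mk.injEq] at h
    obtain ⟨⟨h5, h6⟩, h7⟩ := h
    rw [Prod.mk.injEq]
    exact ⟨h5, by rw [hjt k, hjt k', h6, h7]⟩
  have hM := h3 (V ⊕ V) (JJ V → Cell) (PP V lam (al lam p0 τ)) (spinRate (al lam p0 τ))
    (fun p ω => XX D C' (p.1, jj p.2) (tt p.2) ω)
    (fun i => by rcases i with i | i; exacts [hα.le, zero_le_one]) (fun p => mX _ _)
    (hall.precomp hinj) (fun p => hlaw _ _)
  have hN := h3 (Lab V) (JJ V → Cell) (PP V lam (al lam p0 τ)) (contactRate lam)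
    (fun p ω => ω (Sum.inl p))
    (fun i => by rcases i with i | i; exacts [hlam.le, zero_le_one]) (fun p => measurable_pi_apply _)
    (PP_coord lam _ _ Sum.inl_injective) (fun p => PP_eval _ _ _)
  refine ⟨al lam p0 τ, hα, JJ V → Cell, inferInstance, PP V lam (al lam p0 τ), inferInstance, _, _,
    hN, hM, fun ω => ⟨fun i => ω (Sum.inl i), fun i => rfl, ?_, ?_⟩⟩
  · intro v hv
    have e : ∀ k, XX D C' (Sum.inr v, jj k) (tt k) ω = ω (Sum.inl (Sum.inr v, k)) := by
      intro k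
      simp only [XX, if_pos hv]
      rw [← hjt k]
    simp only [e]
    rfl
  · rintro v hv s ⟨k, l, hl, rfl⟩
    have e : XX D C' (Sum.inl v, jj k) (tt k) ω = C' v (jj k) (tt k) ω := by
      simp only [XX, if_pos hv]
    rw [e] at hl ⊢
    have hk : ww τ (jj k) (tt k) = k := (hjt k).symm
    have h5 := (hC v (jj k) hv).2.2.2.1 ω (tt k)
    have h6 := (hC v (jj k) hv).2.2.2.2.1 ω
    have h7 : C' v (jj k) (tt k) ω = ω (Sum.inl (Sum.inl (ed v k), k)) := by
      rcases h5 with h5 | h5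
      · rw [h5, CC, hk]
      · rw [h5] at hl
        exact absurd hl (Nat.not_lt_zero _)
    have h8 : ω ∈ GG Gv v (jj k) := by
      by_contra hc
      rw [h6 hc (tt k)] at hl
      exact absurd hl (Nat.not_lt_zero _)
    refine ⟨k, jj k, ?_, ?_, ?_, ?_, ?_, h8⟩
    · have := ((C' v (jj k) (tt k) ω).2 l).2.1
      linarith
    · have := ((C' v (jj k) (tt k) ω).2 l).2.2
      linarith
    · have h9 := hk
      unfold ww at h9
      omega
    · have h9 := hk
      have h10 := (tt k).isLt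
      unfold ww at h9
      have : (jj k + 1) * (τ : ℤ) = jj k * τ + τ := by ring
      omega
    · rw [h7] at hl ⊢
      exact ⟨k, l, hl, rfl⟩

end Pool.Agent.H127.SF
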