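import Pool.Agent.H948.SF.Stm

namespace Pool.Agent.H975.SF

open Pool.Agent.H948.SF Set

theorem suffix_aux {e : ℕ} {x y z : W e} {a : Fin (e + 2)} {u v : W e} (h1 : u ++ a :: y = x)
    (h2 : v ++ z = x) (hlen : y.length < z.length) : ∃ w : W e, w ++ a :: y = z := by
  have s1 : (a :: y) <:+ x := ⟨u, h1⟩
  have s2 : z <:+ x := ⟨v, h2⟩
  have := List.suffix_of_suffix_length_le s1 s2 (by simpa using hlen)
  exact this

theorem s_free : S_FREE := by
  intro e A
  classical
  have hfin : ∀ A : Finset (W e),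
      {p : W e × Fin (e + 2) | p.1 ∈ A ∧ ∀ u : W e, u ++ p.2 :: p.1 ∉ A}.Finite := by
    intro A
    refine (Finset.finite_toSet (A ×ˢ (Finset.univ : Finset (Fin (e + 2))))).subset ?_
    rintro ⟨y, a⟩ ⟨h, -⟩
    simpa using h
  induction A using Finset.induction_on_max_value (fun w : W e => w.length) with
  | empty => simp
  | insert x A hx hmax ih =>
    have hF := hfin A
    have hG := hfin (insert x A)
    set F : Set (W e × Fin (e + 2)) := {p | p.1 ∈ A ∧ ∀ u : W e, u ++ p.2 :: p.1 ∉ A} with hFd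
    set G : Set (W e × Fin (e + 2)) :=
      {p | p.1 ∈ insert x A ∧ ∀ u : W e, u ++ p.2 :: p.1 ∉ insert x A} with hGd
    set B : Set (W e × Fin (e + 2)) := {p | p ∈ F ∧ ∃ u : W e, u ++ p.2 :: p.1 = x} with hBd
    have hBF : B ⊆ F := fun p hp => hp.1
    have hBfin : B.Finite := hF.subset hBF
    have hBs : B.ncard ≤ 1 := by
      rw [Set.ncard_le_one hBfin]
      rintro ⟨y, a⟩ ⟨⟨hy, hya⟩, u, hu⟩ ⟨z, b⟩ ⟨⟨hz, hzb⟩, v, hv⟩
      simp only at hy hya hu hz hzb hv
      rcases lt_trichotomy y.length z.length with h | h | h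
      · obtain ⟨w, hw⟩ := suffix_aux (z := z) (v := v ++ [b]) hu (by rw [← hv]; simp) h
        exact absurd (hw ▸ hz) (hya w)
      · have h3 : a :: y = b :: z := by
          have s1 : (a :: y) <:+ x := ⟨u, hu⟩
          have s2 : (b :: z) <:+ x := ⟨v, hv⟩
          have h4 := List.suffix_of_suffix_length_le s1 s2 (by simp [h])
          exact h4.eq_of_length (by simp [h])
        simp only [List.cons.injEq] at h3
        rw [h3.1, h3.2]
      · obtain ⟨w, hw⟩ := suffix_aux (z := y) (v := u ++ [a]) hv (by rw [← hu]; simp) h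
        exact absurd (hw ▸ hy) (hzb w)
    set X : Set (W e × Fin (e + 2)) := (fun a => (x, a)) '' univ with hXd
    have hXc : X.ncard = e + 2 := by
      rw [hXd, Set.ncard_image_of_injective _ (fun a b h => by simpa using h), Set.ncard_univ]
      simp
    have hXfin : X.Finite := Set.finite_univ.image _
    have hsub : (F \ B) ∪ X ⊆ G := by
      rintro ⟨y, a⟩ (⟨⟨hy, hya⟩, hnB⟩ | ⟨b, -, hb⟩)
      · refine ⟨Finset.mem_insert_of_mem hy, fun u hu => ?_⟩
        rcases Finset.mem_insert.1 hu with h | h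
        · exact hnB ⟨⟨hy, hya⟩, u, h⟩
        · exact hya u h
      · simp only [Prod.mk.injEq] at hb
        obtain ⟨rfl, rfl⟩ := hb
        refine ⟨Finset.mem_insert_self _ _, fun u hu => ?_⟩
        simp only at hu
        rcases Finset.mem_insert.1 hu with h | h
        · have := congrArg List.length h
          simp at this
          omega
        · have := hmax _ h
          simp at this
          omega
    have hdisj : Disjoint (F \ B) X := by
      rw [Set.disjoint_left]
      rintro ⟨y, a⟩ ⟨⟨hy, -⟩, -⟩ ⟨b, -, hb⟩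
      simp only [Prod.mk.injEq] at hb
      simp only at hy
      exact hx (hb.1 ▸ hy)
    have h1 : ((F \ B) ∪ X).ncard = (F \ B).ncard + X.ncard :=
      Set.ncard_union_eq hdisj (hF.subset Set.sdiff_subset) hXfin
    have h2 : ((F \ B) ∪ X).ncard ≤ G.ncard := Set.ncard_le_ncard hsub hG
    have h3 : F.ncard ≤ (F \ B).ncard + B.ncard := Set.ncard_le_ncard_sdiff_add_ncard F B hBfin
    rw [Finset.card_insert_of_notMem hx, mul_add, mul_one]
    omega

end Pool.Agent.H975.SF

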