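import Pool.Agent.H948.SF.Stm

/-!
# Random cells give Poisson processes (SF-POIS, by helper967 for helper948)

The joint characteristic function of the counts of finitely many disjoint pieces is computed
exactly, as in `Pool/Agent/H331/LR/Exi.lean`.
-/

namespace Pool.Agent.H967.SF

open MeasureTheory ProbabilityTheory Set Pool.Agent.H948.SF
open scoped ENNReal NNReal Nat

/-! ### Products of functions of single coordinates -/

lemma integral_prod_inf {ι : Type*} {X : ι → Type*} [∀ i, MeasurableSpace (X i)]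
    (μ : ∀ i, Measure (X i)) [∀ i, IsProbabilityMeasure (μ i)] (s : Finset ι)
    (f : ∀ i, X i → ℂ) (hf : ∀ i, Measurable (f i)) :
    ∫ y, ∏ i ∈ s, f i (y i) ∂Measure.infinitePi μ = ∏ i ∈ s, ∫ x, f i x ∂μ i := by
  have h1 : ∀ y : (∀ i, X i), ∏ i ∈ s, f i (y i) =
      (fun z : ∀ i : s, X i => ∏ i : s, f i (z i)) (s.restrict y) := by
    intro y
    simp only [Finset.restrict]
    exact (Finset.prod_coe_sort s fun i => f i (y i)).symm
  rw [integral_congr_ae (Filter.Eventually.of_forall h1),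
    integral_restrict_infinitePi (μ := μ) (f := fun z : ∀ i : s, X i => ∏ i : s, f i (z i)),
    integral_fintype_prod_eq_prod (f := fun (i : s) (x : X i) => f i x)]
  · exact Finset.prod_coe_sort s fun i => ∫ x, f i x ∂μ i
  · refine Measurable.aestronglyMeasurable ?_
    refine Finset.measurable_fun_prod _ fun i _ => ?_
    exact (hf i).comp (measurable_pi_apply i)

/-! ### One cell -/

/-- The position of a point of the window `m`. -/
def pt (m : ℤ) (u : U1) : ℝ := (m : ℝ) + (u : ℝ)

lemma measurable_pt (m : ℤ) : Measurable (pt m) := measurable_const.add measurable_subtype_coe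

lemma unif_pt (m : ℤ) {A : Set ℝ} (hA : MeasurableSet A) :
    unif (pt m ⁻¹' A) = volume (A ∩ Ioc (m : ℝ) (m + 1)) := by
  unfold unif
  rw [Measure.comap_apply Subtype.val Subtype.val_injective
    (fun s hs => MeasurableSet.subtype_image measurableSet_Ioc hs) _ (measurable_pt m hA)]
  have e : Subtype.val '' (pt m ⁻¹' A) =
      (fun x : ℝ => (m : ℝ) + x) ⁻¹' (A ∩ Ioc (m : ℝ) (m + 1)) := by
    ext x
    simp only [mem_image, mem_preimage, pt, Subtype.exists, mem_inter_iff, mem_Ioc]
    constructor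
    · rintro ⟨y, hy, h, rfl⟩
      exact ⟨h, by linarith [hy.1], by linarith [hy.2]⟩
    · rintro ⟨h, h1, h2⟩
      exact ⟨x, ⟨by linarith, by linarith⟩, h, rfl⟩
  rw [e, measure_preimage_add]

lemma unif_singleton (u : U1) : unif {u} = 0 := by
  unfold unif
  rw [Measure.comap_apply Subtype.val Subtype.val_injective
    (fun s hs => MeasurableSet.subtype_image measurableSet_Ioc hs) _ (measurableSet_singleton u),
    image_singleton]
  exact Real.volume_singleton

/-- The sum of `τ` over the points of the cell. -/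
noncomputable def cs (m : ℤ) (τ : ℝ → ℝ) (c : Cell) : ℝ :=
  ∑ l ∈ Finset.range c.1, τ (pt m (c.2 l))

lemma measurable_cs (m : ℤ) {τ : ℝ → ℝ} (hτ : Measurable τ) : Measurable (cs m τ) := by
  unfold cs
  refine measurable_from_prod_countable_right fun n => ?_
  refine Finset.measurable_fun_sum (Finset.range n)
    (f := fun l (u : ℕ → U1) => τ (pt m (u l))) fun l _ => ?_
  exact hτ.comp ((measurable_pt m).comp (measurable_pi_apply l))

lemma poisson_pow (r : ℝ≥0) (z : ℂ) :
    ∫ n, z ^ n ∂(poissonMeasure r) = Complex.exp (r * (z - 1)) := by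
  rw [integral_poissonMeasure]
  have h : HasSum (fun n : ℕ => ((r : ℂ) * z) ^ n / (n ! : ℂ)) (Complex.exp (r * z)) := by
    have := NormedSpace.expSeries_div_hasSum_exp ((r : ℂ) * z)
    rwa [← Complex.exp_eq_exp_ℂ] at this
  have h2 := (h.mul_left (Complex.exp (-r)))
  have e : Complex.exp (r * (z - 1)) = Complex.exp (-r) * Complex.exp (r * z) := by
    rw [← Complex.exp_add]; ring_nf
  rw [e, ← h2.tsum_eq]
  refine tsum_congr fun n => ?_
  rw [Complex.real_smul]
  push_cast
  rw [mul_pow]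
  ring

lemma cell_char (r : ℝ) (m : ℤ) {τ : ℝ → ℝ} (hτ : Measurable τ) :
    ∫ c, Complex.exp ((cs m τ c : ℂ) * Complex.I) ∂(cellLaw r) =
      Complex.exp (r.toNNReal *
        (∫ u, Complex.exp ((τ (pt m u) : ℂ) * Complex.I) ∂unif - 1)) := by
  have hm : Measurable fun c : Cell => Complex.exp ((cs m τ c : ℂ) * Complex.I) := by
    have := measurable_cs m hτ
    fun_prop
  have hint : Integrable (fun c : Cell => Complex.exp ((cs m τ c : ℂ) * Complex.I))
      ((poissonMeasure r.toNNReal).prod (Measure.infinitePi fun _ : ℕ => unif)) := by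
    refine Integrable.of_bound hm.aestronglyMeasurable 1 (Filter.Eventually.of_forall fun c => ?_)
    rw [Complex.norm_exp_ofReal_mul_I]
  unfold cellLaw
  rw [integral_prod _ hint]
  have inner : ∀ n : ℕ, ∫ u, Complex.exp ((cs m τ (n, u) : ℂ) * Complex.I)
      ∂(Measure.infinitePi fun _ : ℕ => unif) =
      (∫ x, Complex.exp ((τ (pt m x) : ℂ) * Complex.I) ∂unif) ^ n := by
    intro n
    have e1 : ∀ u : ℕ → U1, Complex.exp ((cs m τ (n, u) : ℂ) * Complex.I) =
        ∏ l ∈ Finset.range n, Complex.exp ((τ (pt m (u l)) : ℂ) * Complex.I) := by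
      intro u
      rw [← Complex.exp_sum]
      congr 1
      simp only [cs]
      push_cast
      rw [Finset.sum_mul]
    simp_rw [e1]
    have hτ2 : Measurable fun x : U1 => τ (pt m x) := hτ.comp (measurable_pt m)
    rw [integral_prod_inf (fun _ : ℕ => unif) (Finset.range n)
      (fun _ x => Complex.exp ((τ (pt m x) : ℂ) * Complex.I)) (fun _ =>
        Complex.measurable_exp.comp ((Complex.measurable_ofReal.comp hτ2).mul_const Complex.I))]
    simp
  simp_rw [inner]
  exact poisson_pow _ _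

/-! ### All cells -/

section All

variable {ι : Type} (r : ι → ℝ)

open Classical in
/-- The number of points of a cell in `A`. -/
noncomputable def cnt (m : ℤ) (A : Set ℝ) (c : Cell) : ℕ :=
  ((Finset.range c.1).filter fun l => pt m (c.2 l) ∈ A).card

/-- The number of points of the cells `p, …, q - 1` of `i` in `(a, b]`. -/
noncomputable def XX (p q : ℤ) (i : ι) (a b : ℝ) (ω : Env ι) : ℕ :=
  ∑ m ∈ Finset.Ico p q, cnt m (Ioc a b) (ω (i, m))

open Classical in
lemma cnt_cast (m : ℤ) (A : Set ℝ) (c : Cell) :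
    (cnt m A c : ℝ) = cs m (fun x => if x ∈ A then 1 else 0) c := by
  simp only [cnt, cs]
  rw [Finset.sum_ite]
  simp

open Classical in
lemma measurable_cnt (m : ℤ) {A : Set ℝ} (hA : MeasurableSet A) : Measurable (cnt m A) := by
  have h1 : Measurable fun c => (cnt m A c : ℝ) := by
    simp_rw [cnt_cast]
    exact measurable_cs m (Measurable.ite hA measurable_const measurable_const)
  have h2 : cnt m A = fun c => ⌊(cnt m A c : ℝ)⌋₊ := by
    funext c; simp
  rw [h2]
  exact Nat.measurable_floor.comp h1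

lemma measurable_XX (p q : ℤ) (i : ι) (a b : ℝ) : Measurable (XX p q i a b) := by
  unfold XX
  refine Finset.measurable_fun_sum _ fun m _ => ?_
  exact (measurable_cnt m measurableSet_Ioc).comp (measurable_pi_apply _)

lemma Ico_insert (p : ℤ) (n : ℕ) :
    Finset.Ico p (p + (n + 1 : ℕ)) = insert (p + n) (Finset.Ico p (p + n)) := by
  ext x
  simp only [Finset.mem_Ico, Finset.mem_insert]
  omega

lemma vol_sum (p q : ℤ) (hpq : p ≤ q) (a b : ℝ) (ha : p ≤ a) (hb : b ≤ q) :
    ∑ m ∈ Finset.Ico p q, unif.real (pt m ⁻¹' (Ioc a b)) = max (b - a) 0 := by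
  have key : ∀ n : ℕ, ∑ m ∈ Finset.Ico p (p + n), unif.real (pt m ⁻¹' (Ioc a b)) =
      volume.real (Ioc a b ∩ Ioc (p : ℝ) ((p + n : ℤ) : ℝ)) := by
    intro n
    induction n with
    | zero => simp
    | succ n ih =>
      rw [Ico_insert, Finset.sum_insert (by simp), ih]
      have e : Ioc a b ∩ Ioc (p : ℝ) ((p + (n + 1 : ℕ) : ℤ) : ℝ) =
          (Ioc a b ∩ Ioc (p : ℝ) ((p + n : ℤ) : ℝ)) ∪
          (Ioc a b ∩ Ioc ((p + n : ℤ) : ℝ) (((p + n : ℤ) : ℝ) + 1)) := by
        rw [← inter_union_distrib_left, Ioc_union_Ioc_eq_Ioc (by push_cast; linarith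
          [(Nat.cast_nonneg n : (0 : ℝ) ≤ n)]) (by linarith)]
        push_cast
        rw [add_assoc]
      have hf1 : volume (Ioc a b ∩ Ioc (p : ℝ) ((p + n : ℤ) : ℝ)) ≠ ∞ :=
        ne_top_of_le_ne_top (by simp : volume (Ioc a b) ≠ ∞) (measure_mono inter_subset_left)
      have hf2 : volume (Ioc a b ∩ Ioc ((p + n : ℤ) : ℝ) (((p + n : ℤ) : ℝ) + 1)) ≠ ∞ :=
        ne_top_of_le_ne_top (by simp : volume (Ioc a b) ≠ ∞) (measure_mono inter_subset_left)
      have hd : Disjoint (Ioc a b ∩ Ioc (p : ℝ) ((p + n : ℤ) : ℝ))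
          (Ioc a b ∩ Ioc ((p + n : ℤ) : ℝ) (((p + n : ℤ) : ℝ) + 1)) := by
        refine Disjoint.mono inter_subset_right inter_subset_right ?_
        rw [Set.disjoint_left]
        intro x hx hx'
        exact absurd hx.2 (not_le.2 hx'.1)
      rw [e, measureReal_union hd (measurableSet_Ioc.inter measurableSet_Ioc) hf1 hf2, add_comm]
      congr 1
      rw [measureReal_def, measureReal_def, unif_pt _ measurableSet_Ioc]
  obtain ⟨n, rfl⟩ := Int.le.dest hpq
  rw [key]
  have e : Ioc a b ∩ Ioc (p : ℝ) ((p + n : ℤ) : ℝ) = Ioc a b := by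
    refine inter_eq_left.2 fun x hx => ⟨lt_of_le_of_lt ha hx.1, hx.2.trans hb⟩
  rw [e, Real.volume_real_Ioc]

open Classical in
/-- The joint characteristic function of the counts of disjoint pieces. -/
lemma joint_char {κ : Type} [Fintype κ] (l : κ → ι) (a b t : κ → ℝ)
    (hd : ∀ j k, j ≠ k → l j = l k → Disjoint (Ioc (a j) (b j)) (Ioc (a k) (b k)))
    (p q : ℤ) (hpq : p ≤ q) (ha : ∀ k, (p : ℝ) ≤ a k) (hK : ∀ k, b k ≤ q) :
    ∫ ω, Complex.exp (((∑ k, (XX p q (l k) (a k) (b k) ω : ℝ) * t k : ℝ) : ℂ) * Complex.I)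
      ∂(envLaw r) =
      ∏ k, Complex.exp (((r (l k)).toNNReal * max (b k - a k) 0 : ℝ) *
        (Complex.exp ((t k : ℂ) * Complex.I) - 1)) := by
  set τ : ι → ℝ → ℝ := fun i x => ∑ k, if l k = i ∧ x ∈ Ioc (a k) (b k) then t k else 0 with hτ
  have hτm : ∀ i, Measurable (τ i) := by
    intro i
    refine Finset.measurable_fun_sum _ fun k _ => ?_
    refine Measurable.ite ?_ measurable_const measurable_const
    by_cases h : l k = i
    · have : {x : ℝ | l k = i ∧ x ∈ Ioc (a k) (b k)} = Ioc (a k) (b k) := by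
        ext x; simp [h]
      rw [this]
      exact measurableSet_Ioc
    · simp [h]
  set F : Finset (ι × ℤ) := (Finset.univ.image l) ×ˢ Finset.Ico p q with hF
  -- regrouping
  have e1 : ∀ ω : Env ι, (∑ k, (XX p q (l k) (a k) (b k) ω : ℝ) * t k : ℝ) =
      ∑ j ∈ F, cs j.2 (τ j.1) (ω j) := by
    intro ω
    have e2 : ∀ j : ι × ℤ, cs j.2 (τ j.1) (ω j) =
        ∑ k, if l k = j.1 then (cnt j.2 (Ioc (a k) (b k)) (ω j) : ℝ) * t k else 0 := by
      intro j
      simp only [cs, hτ]
      rw [Finset.sum_comm]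
      refine Finset.sum_congr rfl fun k _ => ?_
      by_cases h : l k = j.1
      · simp only [h, true_and, if_true]
        rw [cnt_cast, cs, Finset.sum_mul]
        refine Finset.sum_congr rfl fun n _ => ?_
        by_cases h' : pt j.2 ((ω j).2 n) ∈ Ioc (a k) (b k) <;> simp [h']
      · simp [h]
    simp_rw [e2]
    rw [Finset.sum_comm]
    refine Finset.sum_congr rfl fun k _ => ?_
    rw [hF, Finset.sum_product, Finset.sum_eq_single (l k)]
    · simp only [if_true, XX]
      push_cast
      rw [Finset.sum_mul]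
    · intro i _ hi
      refine Finset.sum_eq_zero fun m _ => ?_
      simp [hi.symm]
    · intro h
      exact absurd (Finset.mem_image_of_mem l (Finset.mem_univ k)) h
  -- the characteristic function of a cell
  have e3 : ∀ (i : ι) (m : ℤ), ∫ u, Complex.exp ((τ i (pt m u) : ℂ) * Complex.I) ∂unif - 1 =
      ∑ k, if l k = i then (unif.real (pt m ⁻¹' (Ioc (a k) (b k))) : ℂ) *
        (Complex.exp ((t k : ℂ) * Complex.I) - 1) else 0 := by
    intro i m
    have e4 : ∀ u : U1, Complex.exp ((τ i (pt m u) : ℂ) * Complex.I) =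
        1 + ∑ k, if l k = i then (pt m ⁻¹' (Ioc (a k) (b k))).indicator
          (fun _ => Complex.exp ((t k : ℂ) * Complex.I) - 1) u else 0 := by
      intro u
      by_cases hx : ∃ k, l k = i ∧ pt m u ∈ Ioc (a k) (b k)
      · obtain ⟨k, hk1, hk2⟩ := hx
        have hz : ∀ k', k' ≠ k → l k' = i → pt m u ∉ Ioc (a k') (b k') := by
          intro k' hk' hl hx'
          exact Set.disjoint_left.1 (hd k' k hk' (hl.trans hk1.symm)) hx' hk2
        have h1 : τ i (pt m u) = t k := by
          simp only [hτ]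
          rw [Finset.sum_eq_single k]
          · rw [if_pos ⟨hk1, hk2⟩]
          · intro k' _ hk'
            exact if_neg fun h => hz k' hk' h.1 h.2
          · intro h
            exact absurd (Finset.mem_univ k) h
        rw [h1, Finset.sum_eq_single k]
        · rw [if_pos hk1, Set.indicator_of_mem (show u ∈ pt m ⁻¹' (Ioc (a k) (b k)) from hk2)]
          ring
        · intro k' _ hk'
          by_cases hl : l k' = i
          · rw [if_pos hl, Set.indicator_of_notMem
              (show u ∉ pt m ⁻¹' (Ioc (a k') (b k')) from hz k' hk' hl)]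
          · rw [if_neg hl]
        · intro h
          exact absurd (Finset.mem_univ k) h
      · push Not at hx
        have h1 : τ i (pt m u) = 0 := by
          simp only [hτ]
          exact Finset.sum_eq_zero fun k _ => if_neg fun h => hx k h.1 h.2
        rw [h1, Finset.sum_eq_zero]
        · simp
        · intro k _
          by_cases hl : l k = i
          · rw [if_pos hl, Set.indicator_of_notMem
              (show u ∉ pt m ⁻¹' (Ioc (a k) (b k)) from hx k hl)]
          · rw [if_neg hl]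
    simp_rw [e4]
    rw [integral_add (integrable_const _), integral_finsetSum]
    · simp only [integral_const, probReal_univ, one_smul, add_sub_cancel_left]
      refine Finset.sum_congr rfl fun k _ => ?_
      by_cases hl : l k = i
      · simp only [hl, if_true]
        rw [integral_indicator_const _ (measurable_pt m measurableSet_Ioc), Complex.real_smul]
      · simp [hl]
    · intro k _
      by_cases hl : l k = i
      · simp only [hl, if_true]
        exact (integrable_const _).indicator (measurable_pt m measurableSet_Ioc)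
      · simp [hl]
    · refine integrable_finsetSum _ fun k _ => ?_
      by_cases hl : l k = i
      · simp only [hl, if_true]
        exact (integrable_const _).indicator (measurable_pt m measurableSet_Ioc)
      · simp [hl]
  have e5 : ∀ ω : Env ι,
      Complex.exp (((∑ k, (XX p q (l k) (a k) (b k) ω : ℝ) * t k : ℝ) : ℂ) * Complex.I) =
      ∏ j ∈ F, Complex.exp ((cs j.2 (τ j.1) (ω j) : ℂ) * Complex.I) := by
    intro ω
    rw [e1, ← Complex.exp_sum]
    push_cast
    rw [Finset.sum_mul]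
  rw [integral_congr_ae (Filter.Eventually.of_forall e5)]
  unfold envLaw
  rw [integral_prod_inf (fun j : ι × ℤ => cellLaw (r j.1)) F
    (fun j c => Complex.exp ((cs j.2 (τ j.1) c : ℂ) * Complex.I)) (fun j => by
      have := measurable_cs j.2 (hτm j.1)
      fun_prop)]
  have e6 : ∀ j : ι × ℤ, ∫ c, Complex.exp ((cs j.2 (τ j.1) c : ℂ) * Complex.I)
      ∂(cellLaw (r j.1)) = Complex.exp ((r j.1).toNNReal *
        (∑ k, if l k = j.1 then (unif.real (pt j.2 ⁻¹' (Ioc (a k) (b k))) : ℂ) *
        (Complex.exp ((t k : ℂ) * Complex.I) - 1) else 0)) := by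
    intro j
    rw [cell_char _ _ (hτm _), e3]
  simp_rw [e6]
  rw [← Complex.exp_sum, ← Complex.exp_sum]
  congr 1
  simp_rw [Finset.mul_sum]
  rw [Finset.sum_comm]
  refine Finset.sum_congr rfl fun k _ => ?_
  rw [hF, Finset.sum_product, Finset.sum_eq_single (l k)]
  · simp only [if_true]
    rw [← vol_sum p q hpq (a k) (b k) (ha k) (hK k)]
    push_cast
    rw [Finset.mul_sum, Finset.sum_mul]
    refine Finset.sum_congr rfl fun m _ => ?_
    ring
  · intro i _ hi
    refine Finset.sum_eq_zero fun m _ => ?_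
    simp [hi.symm]
  · intro h
    exact absurd (Finset.mem_image_of_mem l (Finset.mem_univ k)) h

/-- The characteristic function of one count. -/
lemma char_XX (i : ι) (a b : ℝ) (p q : ℤ) (hpq : p ≤ q) (ha : (p : ℝ) ≤ a) (hK : b ≤ q) (t : ℝ) :
    charFun ((envLaw r).map fun ω => (XX p q i a b ω : ℝ)) t =
      Complex.exp (((r i).toNNReal * max (b - a) 0 : ℝ) *
        (Complex.exp ((t : ℂ) * Complex.I) - 1)) := by
  have h := joint_char r (κ := Unit) (fun _ => i) (fun _ => a) (fun _ => b) (fun _ => t)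
    (fun j k hjk => absurd (Subsingleton.elim j k) hjk) p q hpq (fun _ => ha) (fun _ => hK)
  have hm : Measurable fun ω => (XX p q i a b ω : ℝ) :=
    measurable_from_top.comp (measurable_XX p q i a b)
  rw [charFun_apply, integral_map hm.aemeasurable (by fun_prop)]
  simp only [Finset.univ_unique, Finset.sum_singleton, Finset.prod_singleton] at h
  rw [← h]
  refine integral_congr_ae (Filter.Eventually.of_forall fun ω => ?_)
  simp [mul_comm]

lemma law_XX (i : ι) (a b : ℝ) (p q : ℤ) (hpq : p ≤ q) (ha : (p : ℝ) ≤ a) (hK : b ≤ q) :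
    (envLaw r).map (fun ω => (XX p q i a b ω : ℝ)) =
      (poissonMeasure ((r i).toNNReal * (b - a).toNNReal)).map (Nat.cast : ℕ → ℝ) := by
  have hm : Measurable fun ω => (XX p q i a b ω : ℝ) :=
    measurable_from_top.comp (measurable_XX p q i a b)
  have : IsProbabilityMeasure ((envLaw r).map (fun ω => (XX p q i a b ω : ℝ))) :=
    Measure.isProbabilityMeasure_map hm.aemeasurable
  refine Measure.ext_of_charFun ?_
  funext t
  rw [char_XX r i a b p q hpq ha hK, charFun_map_cast_poissonMeasure]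
  congr 2

lemma prob_XX (i : ι) (a b : ℝ) (p q : ℤ) (hpq : p ≤ q) (ha : (p : ℝ) ≤ a) (hK : b ≤ q) (n : ℕ) :
    envLaw r {ω | XX p q i a b ω = n} =
      ENNReal.ofReal (Real.exp (-((r i).toNNReal * (b - a).toNNReal)) *
        ((r i).toNNReal * (b - a).toNNReal) ^ n / n !) := by
  have hm : Measurable fun ω => (XX p q i a b ω : ℝ) :=
    measurable_from_top.comp (measurable_XX p q i a b)
  have h1 : {ω | XX p q i a b ω = n} = (fun ω => (XX p q i a b ω : ℝ)) ⁻¹' {(n : ℝ)} := by
    ext ω
    simp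
  rw [h1, ← Measure.map_apply hm (measurableSet_singleton _), law_XX r i a b p q hpq ha hK,
    Measure.map_apply measurable_from_top (measurableSet_singleton _)]
  have h2 : (Nat.cast : ℕ → ℝ) ⁻¹' {(n : ℝ)} = {n} := by
    ext m
    simp
  rw [h2, poissonMeasure_singleton]
  push_cast
  rfl

lemma indep_XX {κ : Type} [Fintype κ] (l : κ → ι) (a b : κ → ℝ)
    (hd : ∀ j k, j ≠ k → l j = l k → Disjoint (Ioc (a j) (b j)) (Ioc (a k) (b k)))
    (p q : ℤ) (hpq : p ≤ q) (ha : ∀ k, (p : ℝ) ≤ a k) (hK : ∀ k, b k ≤ q) :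
    iIndepFun (fun k ω => (XX p q (l k) (a k) (b k) ω : ℝ)) (envLaw r) := by
  have hm : ∀ k, Measurable fun ω => (XX p q (l k) (a k) (b k) ω : ℝ) :=
    fun k => measurable_from_top.comp (measurable_XX p q (l k) (a k) (b k))
  rw [iIndepFun_iff_charFun_pi fun k => (hm k).aemeasurable]
  intro t
  simp_rw [char_XX r _ _ _ p q hpq (ha _) (hK _)]
  rw [← joint_char r l a b (fun k => t k) hd p q hpq ha hK, charFun_apply, integral_map]
  · refine integral_congr_ae (Filter.Eventually.of_forall fun ω => ?_)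
    simp [PiLp.inner_apply, mul_comm]
  · exact ((WithLp.measurable_toLp 2 _).comp (measurable_pi_lambda _ hm)).aemeasurable
  · fun_prop

/-! ### The points -/

/-- The points are different. -/
def Good (i : ι) (ω : Env ι) : Prop :=
  ∀ m : ℤ, ∀ l l', l ≠ l' → (ω (i, m)).2 l ≠ (ω (i, m)).2 l'

lemma ae_good (i : ι) : ∀ᵐ ω ∂(envLaw r), Good i ω := by
  unfold Good
  rw [ae_all_iff]
  intro m
  have h1 : MeasurePreserving (fun ω : Env ι => (ω (i, m)).2) (envLaw r)
      (Measure.infinitePi fun _ : ℕ => unif) := by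
    have h2 : MeasurePreserving (Prod.snd : ℕ × (ℕ → U1) → (ℕ → U1)) (cellLaw (r i))
        (Measure.infinitePi fun _ : ℕ => unif) := by
      unfold cellLaw
      exact measurePreserving_snd
    exact h2.comp (measurePreserving_eval_infinitePi (fun j : ι × ℤ => cellLaw (r j.1)) (i, m))
  rw [ae_all_iff]
  intro l
  rw [ae_all_iff]
  intro l'
  by_cases hl : l = l'
  · exact Filter.Eventually.of_forall fun ω h => absurd hl h
  · have h4 : MeasurePreserving (fun u : ℕ → U1 => (u l, u l'))
        (Measure.infinitePi fun _ : ℕ => unif) (unif.prod unif) :=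
      ⟨by fun_prop, Measure.infinitePi_map_eval_prod (P := fun _ : ℕ => unif) hl⟩
    have h5 : ∀ᵐ z ∂(unif.prod unif), z.1 ≠ z.2 := by
      rw [ae_iff]
      have e : {z : U1 × U1 | ¬ z.1 ≠ z.2} = {z : U1 × U1 | z.1 = z.2} := by
        ext z; simp
      rw [e, Measure.measure_prod_null (measurableSet_eq_fun measurable_fst measurable_snd)]
      refine Filter.Eventually.of_forall fun x => ?_
      have e2 : Prod.mk x ⁻¹' {z : U1 × U1 | z.1 = z.2} = {x} := by
        ext y; simp [eq_comm]
      change unif (Prod.mk x ⁻¹' {z : U1 × U1 | z.1 = z.2}) = 0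
      rw [e2]
      exact unif_singleton x
    have h6 := h1.quasiMeasurePreserving.ae (h4.quasiMeasurePreserving.ae h5)
    filter_upwards [h6] with ω hω _
    exact hω

open Classical in
/-- The number of different points of a cell in `A`. -/
noncomputable def dc (m : ℤ) (A : Set ℝ) (c : Cell) : ℕ :=
  ((Finset.range c.1).filter fun l => pt m (c.2 l) ∈ A ∧ ∀ l' < l, c.2 l' ≠ c.2 l).card

open Classical in
lemma measurable_dc (m : ℤ) {A : Set ℝ} (hA : MeasurableSet A) : Measurable (dc m A) := by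
  unfold dc
  refine measurable_from_prod_countable_right fun n => ?_
  simp only [Finset.card_filter]
  refine Finset.measurable_fun_sum (Finset.range n)
    (f := fun l (u : ℕ → U1) => if pt m (u l) ∈ A ∧ ∀ l' < l, u l' ≠ u l then 1 else 0)
    fun l _ => ?_
  refine Measurable.ite ?_ measurable_const measurable_const
  refine MeasurableSet.inter ((measurable_pt m).comp (measurable_pi_apply l) hA) ?_
  have e : {u : ℕ → U1 | ∀ l' < l, u l' ≠ u l} = ⋂ l' : ℕ, ⋂ _ : l' < l, {u | u l' = u l}ᶜ := by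
    ext u
    simp
  change MeasurableSet {u : ℕ → U1 | ∀ l' < l, u l' ≠ u l}
  rw [e]
  refine MeasurableSet.iInter fun l' => MeasurableSet.iInter fun _ => ?_
  exact (measurableSet_eq_fun (measurable_pi_apply l') (measurable_pi_apply l)).compl

open Classical in
lemma dc_eq {i : ι} {ω : Env ι} (hg : Good i ω) (m : ℤ) (A : Set ℝ) :
    dc m A (ω (i, m)) = cnt m A (ω (i, m)) := by
  unfold dc cnt
  congr 1
  ext l
  simp only [Finset.mem_filter]
  constructor
  · rintro ⟨h1, h2, -⟩
    exact ⟨h1, h2⟩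
  · rintro ⟨h1, h2⟩
    exact ⟨h1, h2, fun l' hl' => hg m l' l hl'.ne⟩

open Classical in
lemma encard_marks (ω : Env ι) (i : ι) (a b : ℝ) (p q : ℤ) (hp : (p : ℝ) ≤ a) (hq : b ≤ q) :
    (marks ω i ∩ Ioc a b).encard =
      ((∑ m ∈ Finset.Ico p q, dc m (Ioc a b) (ω (i, m)) : ℕ) : ℕ∞) := by
  set S : Finset ((_ : ℤ) × ℕ) := (Finset.Ico p q).sigma fun m =>
    (Finset.range (ω (i, m)).1).filter fun l => pt m ((ω (i, m)).2 l) ∈ Ioc a b ∧
      ∀ l' < l, (ω (i, m)).2 l' ≠ (ω (i, m)).2 l with hS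
  have h1 : marks ω i ∩ Ioc a b =
      (fun x : (_ : ℤ) × ℕ => pt x.1 ((ω (i, x.1)).2 x.2)) '' (S : Set _) := by
    ext x
    simp only [mem_inter_iff, mem_image, Finset.mem_coe]
    constructor
    · rintro ⟨⟨m, l, hl, rfl⟩, hx⟩
      have hex : ∃ l', (ω (i, m)).2 l' = (ω (i, m)).2 l := ⟨l, rfl⟩
      refine ⟨⟨m, Nat.find hex⟩, ?_, ?_⟩
      · simp only [hS, Finset.mem_sigma, Finset.mem_range, Finset.mem_filter, Finset.mem_Ico]
        have h3 := ((ω (i, m)).2 l).2.1
        have h4 := ((ω (i, m)).2 l).2.2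
        refine ⟨⟨?_, ?_⟩, lt_of_le_of_lt (Nat.find_min' hex rfl) hl, ?_, ?_⟩
        · have h5 : (p : ℝ) < (m : ℝ) + 1 := by linarith [hx.1]
          have h6 : p < m + 1 := by exact_mod_cast h5
          omega
        · have h5 : (m : ℝ) < q := by linarith [hx.2]
          exact_mod_cast h5
        · rw [Nat.find_spec hex]
          exact hx
        · intro l' hl'
          rw [Nat.find_spec hex]
          exact Nat.find_min hex hl'
      · show pt m ((ω (i, m)).2 (Nat.find hex)) = _
        rw [Nat.find_spec hex]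
        rfl
    · rintro ⟨⟨m, l⟩, hp, rfl⟩
      simp only [hS, Finset.mem_sigma, Finset.mem_range, Finset.mem_filter] at hp
      exact ⟨⟨m, l, hp.2.1, rfl⟩, hp.2.2.1⟩
  have h2 : Set.InjOn (fun x : (_ : ℤ) × ℕ => pt x.1 ((ω (i, x.1)).2 x.2)) (S : Set _) := by
    rintro ⟨m, l⟩ hx ⟨m', l'⟩ hx' h
    simp only [hS, Finset.mem_coe, Finset.mem_sigma, Finset.mem_range, Finset.mem_filter]
      at hx hx'
    simp only [pt] at h
    have hm : m = m' := by
      have a1 := ((ω (i, m)).2 l).2
      have a2 := ((ω (i, m')).2 l').2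
      have b1 : (m : ℝ) < m' + 1 := by linarith [a1.1, a2.2]
      have b2 : (m' : ℝ) < m + 1 := by linarith [a2.1, a1.2]
      have c1 : m < m' + 1 := by exact_mod_cast b1
      have c2 : m' < m + 1 := by exact_mod_cast b2
      omega
    subst hm
    have hu : (ω (i, m)).2 l = (ω (i, m)).2 l' := by
      apply Subtype.ext
      linarith
    have hl : l = l' := by
      rcases lt_trichotomy l l' with h3 | h3 | h3
      · exact absurd hu (hx'.2.2.2 l h3)
      · exact h3
      · exact absurd hu.symm (hx.2.2.2 l' h3)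
    rw [hl]
  rw [h1, h2.encard_image, Set.encard_coe_eq_coe_finsetCard, hS, Finset.card_sigma]
  refine congrArg _ (Finset.sum_congr rfl fun m _ => ?_)
  unfold dc
  congr 1
  ext l
  simp only [Finset.mem_filter]

lemma ae_encard (i : ι) (a b : ℝ) (p q : ℤ) (hp : (p : ℝ) ≤ a) (hq : b ≤ q) :
    (fun ω => (marks ω i ∩ Ioc a b).encard) =ᵐ[envLaw r]
      fun ω => ((XX p q i a b ω : ℕ) : ℕ∞) := by
  filter_upwards [ae_good r i] with ω hω
  rw [encard_marks ω i a b p q hp hq]
  congr 1
  exact Finset.sum_congr rfl fun m _ => dc_eq hω m _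

lemma exists_window (a b : ℝ) : ∃ p q : ℤ, p ≤ q ∧ (p : ℝ) ≤ a ∧ b ≤ q := by
  refine ⟨min ⌊a⌋ ⌈b⌉, ⌈b⌉, min_le_right _ _, ?_, Int.le_ceil b⟩
  have h : ((min ⌊a⌋ ⌈b⌉ : ℤ) : ℝ) ≤ ((⌊a⌋ : ℤ) : ℝ) := by
    exact_mod_cast min_le_left _ _
  exact h.trans (Int.floor_le a)

lemma measurable_encard (i : ι) (a b : ℝ) :
    Measurable fun ω : Env ι => (marks ω i ∩ Ioc a b).encard := by
  obtain ⟨p, q, -, hp, hq⟩ := exists_window a b
  have h : (fun ω : Env ι => (marks ω i ∩ Ioc a b).encard) =
      fun ω => ((∑ m ∈ Finset.Ico p q, dc m (Ioc a b) (ω (i, m)) : ℕ) : ℕ∞) := by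
    funext ω
    exact encard_marks ω i a b p q hp hq
  rw [h]
  refine measurable_from_top.comp ?_
  refine Finset.measurable_fun_sum _ fun m _ => ?_
  exact (measurable_dc m measurableSet_Ioc).comp (measurable_pi_apply _)

lemma env_law (hr : ∀ i, 0 ≤ r i) (i : ι) (a b : ℝ) (hab : a ≤ b) (k : ℕ) :
    envLaw r {ω | (marks ω i ∩ Ioc a b).encard = (k : ℕ∞)} =
      ENNReal.ofReal (Real.exp (-(r i * (b - a))) * (r i * (b - a)) ^ k / (k)!) := by
  obtain ⟨p, q, hpq, hp, hq⟩ := exists_window a b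
  have h1 : envLaw r {ω | (marks ω i ∩ Ioc a b).encard = (k : ℕ∞)} =
      envLaw r {ω | XX p q i a b ω = k} := by
    refine measure_congr ?_
    filter_upwards [ae_encard r i a b p q hp hq] with ω hω
    have : ((marks ω i ∩ Ioc a b).encard = (k : ℕ∞)) = (XX p q i a b ω = k) := by
      rw [hω]
      simp
    exact this
  rw [h1, prob_XX r i a b p q hpq hp hq k, Real.coe_toNNReal _ (sub_nonneg.2 hab),
    Real.coe_toNNReal _ (hr i)]

lemma env_indep (κ : Type) (l : κ → ι) (a b : κ → ℝ)
    (hd : ∀ j k, j ≠ k → l j = l k → Disjoint (Ioc (a j) (b j)) (Ioc (a k) (b k))) :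
    iIndepFun (fun k (ω : Env ι) => (marks ω (l k) ∩ Ioc (a k) (b k)).encard) (envLaw r) := by
  rw [iIndepFun_iff_finset]
  intro s
  obtain ⟨K, hK⟩ : ∃ K : ℕ, ∀ k : s, |a k| ≤ K ∧ |b k| ≤ K := by
    refine ⟨∑ k : s, (⌈|a k|⌉₊ + ⌈|b k|⌉₊), fun k => ?_⟩
    have h1 : ⌈|a k|⌉₊ + ⌈|b k|⌉₊ ≤ ∑ k : s, (⌈|a k|⌉₊ + ⌈|b k|⌉₊) :=
      Finset.single_le_sum (f := fun k : s => ⌈|a k|⌉₊ + ⌈|b k|⌉₊) (fun _ _ => Nat.zero_le _)
        (Finset.mem_univ k)
    have h2 : ((⌈|a k|⌉₊ + ⌈|b k|⌉₊ : ℕ) : ℝ) ≤ ((∑ k : s, (⌈|a k|⌉₊ + ⌈|b k|⌉₊) : ℕ) : ℝ) := by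
      exact_mod_cast h1
    have h3 := Nat.le_ceil |a k|
    have h4 := Nat.le_ceil |b k|
    have h5 : (0 : ℝ) ≤ (⌈|a k|⌉₊ : ℝ) := Nat.cast_nonneg _
    have h6 : (0 : ℝ) ≤ (⌈|b k|⌉₊ : ℝ) := Nat.cast_nonneg _
    have h7 : ((⌈|a k|⌉₊ + ⌈|b k|⌉₊ : ℕ) : ℝ) = (⌈|a k|⌉₊ : ℝ) + (⌈|b k|⌉₊ : ℝ) :=
      Nat.cast_add _ _
    constructor
    · linarith
    · linarith
  have hp : ∀ k : s, ((-(K : ℤ) : ℤ) : ℝ) ≤ a k := by
    intro k
    have h1 := neg_abs_le (a k)
    have h2 := (hK k).1
    push_cast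
    linarith
  have hq : ∀ k : s, b k ≤ ((K : ℤ) : ℝ) := by
    intro k
    have h1 := le_abs_self (b k)
    have h2 := (hK k).2
    push_cast
    linarith
  have h1 := indep_XX r (fun k : s => l k) (fun k : s => a k) (fun k : s => b k)
    (fun j k hjk hl => hd j k (fun h => hjk (Subtype.ext h)) hl) (-(K : ℤ)) K (by omega) hp hq
  have h2 := h1.comp (fun _ x => ((⌊x⌋₊ : ℕ) : ℕ∞))
    (fun _ => measurable_from_top.comp Nat.measurable_floor)
  refine h2.congr fun k => ?_
  filter_upwards [ae_encard r (l k) (a k) (b k) (-(K : ℤ)) K (hp k) (hq k)] with ω hω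
  simp only [Function.comp, Finset.restrict, Nat.floor_natCast]
  exact hω.symm

end All

/-- Independence is transported along a map. -/
lemma indep_comp {Ω Ω' κ : Type} {F : κ → Type} [∀ k, MeasurableSpace (F k)] [MeasurableSpace Ω]
    [MeasurableSpace Ω'] {P : Measure Ω} {g : Ω → Ω'} (hg : Measurable g) {Y : ∀ k, Ω' → F k}
    (hY : ∀ k, Measurable (Y k)) (h : iIndepFun Y (P.map g)) :
    iIndepFun (fun k ω => Y k (g ω)) P := by
  rw [iIndepFun_iff_measure_inter_preimage_eq_mul] at h ⊢
  intro S sets hs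
  have h1 := h S hs
  rw [Measure.map_apply hg (Finset.measurableSet_biInter S fun k hk => hY k (hs k hk))] at h1
  have h2 : g ⁻¹' (⋂ i ∈ S, Y i ⁻¹' sets i) = ⋂ i ∈ S, (fun ω => Y i (g ω)) ⁻¹' sets i := by
    rw [Set.preimage_iInter₂]
    rfl
  rw [h2] at h1
  rw [h1]
  refine Finset.prod_congr rfl fun k hk => ?_
  rw [Measure.map_apply hg (hY k (hs k hk))]
  rfl

/-- **[POIS]** Random cells give Poisson processes. -/
theorem s_pois : S_POIS := by
  intro ι Ω _ P _ r C hr hC hind hlaw
  have hg : Measurable fun (ω : Ω) (i : ι × ℤ) => C i ω := measurable_pi_lambda _ hC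
  have hmap : P.map (fun (ω : Ω) (i : ι × ℤ) => C i ω) = envLaw r := by
    rw [hind.map_fun_eq_infinitePi_map hC]
    unfold envLaw
    congr 1
    funext i
    exact hlaw i
  refine ⟨hr, fun i a b => (measurable_encard i a b).comp hg, fun i a b hab k => ?_,
    fun κ l a b hd => ?_⟩
  · have h1 := env_law r hr i a b hab k
    have hm : MeasurableSet {ω : Env ι | (marks ω i ∩ Ioc a b).encard = (k : ℕ∞)} :=
      measurable_encard i a b (measurableSet_singleton (k : ℕ∞))
    rw [← hmap, Measure.map_apply hg hm] at h1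
    exact h1
  · have h1 := env_indep r κ l a b hd
    rw [← hmap] at h1
    exact indep_comp hg (fun k => measurable_encard (l k) (a k) (b k)) h1

end Pool.Agent.H967.SF
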