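import Pool.Agent.H948.SF.Env

/-!
# Project SF (MP_69dcc1_pr): statements of the pieces

`mu V lam` is the law of the environment (marks of all labels in all windows `(k, k + 1]`), see
`Env.lean`.  `Con G ω x k y l` : infection path from `x` at time `k` to `y` at time `l` (integers).
`Base.lean` (proved) contains the deterministic facts on paths: composition `PE.trans`, splitting
`PE.split`, monotonicity `PE.mono`, dependence `Con_congr`, embeddings `PE_pull`, `Con_pull`.
-/

namespace Pool.Agent.H948.SF

open MeasureTheory ProbabilityTheory Set Filter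
open scoped ENNReal NNReal Nat Topology

/-! ## Foundations -/

/-- **[RIX]** Reindexing a product measure along an injection, in particular `pull` preserves `mu`.

Proof. (1) `Measure.eq_infinitePi`: the measure of a box over a finite set `s` of indices `j` is the
measure of the box over `f '' s` (`infinitePi_pi`, `f` injective). (2) The map `pull Φ k0` is of this
form: the index map sends `(inl e, k)` to `(inl (e.map Φ), k + k0)` and `(inr x, k)` to
`(inr (Φ x), k + k0)`, which is injective if `Φ` is (`Sym2.map.injective`), and it preserves the rates.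
-/
def S_RIX : Prop :=
  (∀ (J J' : Type) (r : J → ℝ) (r' : J' → ℝ) (f : J' → J), Function.Injective f →
    (∀ j, r (f j) = r' j) →
    MeasurePreserving (fun (ω : J → Cell) (j : J') => ω (f j))
      (Measure.infinitePi fun j => cellLaw (r j)) (Measure.infinitePi fun j => cellLaw (r' j))) ∧
  (∀ (A B : Type) (lam : ℝ) (Φ : A → B) (k0 : ℤ), Function.Injective Φ →
    MeasurePreserving (pull Φ k0) (mu B lam) (mu A lam))

/-- **[BLOCK]** Functions of disjoint sets of coordinates of a product measure are independent.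

Proof. Fix `ω0`. For a set `I` of coordinates let `ext I : (I → Cell) → (J → Cell)` extend by `ω0`;
then `Y k = (Y k ∘ ext (I k)) ∘ restrict (I k)`, and `Y k ∘ ext (I k)` is measurable. So it suffices
that the restrictions to the disjoint sets `I k` are independent
(`iIndepFun_infinitePi`, and either `iIndepFun.precomp`/`iIndep` with π-systems of boxes, or a direct
argument: for a finite set of `k`'s, `P (⋂ boxes) = ∏ P (boxes)` by `infinitePi_pi`, then
`iIndepSets.iIndep`). -/
def S_BLOCK : Prop :=
  ∀ (J : Type) (r : J → ℝ) (κ : Type) (F : κ → Type) [∀ k, MeasurableSpace (F k)]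
    (Y : ∀ k, (J → Cell) → F k) (I : κ → Set J), (∀ k, Measurable (Y k)) →
    (∀ k (ω ω' : J → Cell), (∀ j ∈ I k, ω j = ω' j) → Y k ω = Y k ω') →
    (∀ k k', k ≠ k' → Disjoint (I k) (I k')) →
    iIndepFun Y (Measure.infinitePi fun j => cellLaw (r j))

/-- **[MEAS]** Measurability of the path events.

Proof. Nodes: `(y, ref)` with `ref` either the start (time `s`) or the reference `(u, k, l)` of a
mark of the label `inl s(u, y)` (time `k + (ω (inl s(u, y), k)).2 l`, a measurable function of `ω`).
`Reach m`: set of the nodes reachable with `m` crossings. By induction on `m` the set of the `ω` for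
which a given node is in `Reach m` is measurable: a countable union over the previous node `(u, ref')`
of the sets given by: previous node in `Reach (m - 1)`, `G.Adj u y`, `l < (ω _).1`, time `ref > s`,
time `ref' ≤` time `ref`, and no recovery mark of `u` in the interval (time `ref'`, time `ref`]: a
countable intersection. Finally `PE G ω x s y t` iff for some `m` and some node `(y, ref)` in
`Reach m`, time `ref ≤ t` and no recovery mark of `y` in (time `ref`, `t`] (induction on `Path`). -/
def S_MEAS : Prop :=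
  ∀ (V : Type) [Countable V] (G : SimpleGraph V) (x y : V) (s t : ℝ),
    MeasurableSet {ω : Env (Lab V) | PE G ω x s y t}

/-- **[REV]** Reversal of time.

Proof. Let `flip u = 1 - u` for `u < 1`, `flip 1 = 1` (it preserves `unif`), and
`(rev ω) (i, t) = (n, flip ∘ U)` for `(n, U) = ω (i, k + l - 1 - t)`. `rev` preserves `mu V lam` (a
bijection of the indices and a coordinatewise map, `infinitePi_map_pi`). Almost surely all positions
are `< 1`, and the positions `U` with different indices `(i, t, m) ≠ (i', t, m')` are different (no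
atoms). For such `ω`: `PE G ω x s y t` with `k ≤ s ≤ t ≤ l` implies
`PE G (rev ω) y (k + l - t) x (k + l - s)` if neither `s` nor `t` ... : show by induction on the path
(from `(x, k)`) the statement: for every `u` with `Path .. x k y u`, and `u` not a recovery time of
`y`, or `u = k`: `PE G (rev ω) y (k + l - u) x l`. In the step `stay` from `t` to `u`: a recovery mark
of `y` in `(k + l - u, k + l - t]` for `rev ω` is a recovery mark of `y` in `[t, u)` for `ω`; at the
time `t` itself there is none (`t = k` is an integer and no mark is an integer; otherwise `t` is a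
crossing time, different from all recovery times, or the end of a previous stay: it is convenient to
normalise the paths, or to carry the clause `u` is not a recovery time of `y` along the induction).
In the step `cross` the mark is the same. By symmetry (`rev (rev ω) = ω` for such `ω`) one gets the
equality of the two probabilities up to null sets. -/
def S_REV : Prop :=
  ∀ (V : Type) [Countable V] (G : SimpleGraph V) (lam : ℝ) (x y : V) (k l : ℤ), 0 ≤ lam → k ≤ l →
    mu V lam {ω | Con G ω x k y l} = mu V lam {ω | Con G ω y k x l}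

/-- **[POIS]** Random cells give Poisson processes.

Proof. In one window `(k, k + 1]`: for disjoint subintervals the numbers of points are independent
Poisson variables (multinomial splitting; almost surely the positions are different). A general
interval is cut at the integers; sums of independent Poisson variables are Poisson
(`poissonMeasure_conv_poissonMeasure`), functions of disjoint blocks are independent. A variant is
proved in `Pool/Agent/H331/LR/Exi.lean` (piece EXI of helper958's project LR). -/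
def S_POIS : Prop :=
  ∀ (ι Ω : Type) [MeasurableSpace Ω] (P : Measure Ω) [IsProbabilityMeasure P] (r : ι → ℝ)
    (C : ι × ℤ → Ω → Cell), (∀ i, 0 ≤ r i) → (∀ i, Measurable (C i)) → iIndepFun C P →
    (∀ i, P.map (C i) = cellLaw (r i.1)) →
    IsPoissonFamily P r fun i ω =>
      {t | ∃ (k : ℤ) (l : ℕ), l < (C (i, k) ω).1 ∧ t = k + ((C (i, k) ω).2 l : ℝ)}

/-- **[HAND]** Handing over from `x` to a neighbour `y` in one window, using only `x` and `y`:
probability at least `hc lam`. Probability of no recovery mark of `x` in a window.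

Proof. If the cells `(inr x, k)`, `(inr y, k)` have number `0` and the cell `(inl s(x,y), k)` has
positive number, there is such a path (stay, cross, stay). The cells are independent
(`infinitePi_pi`), `poissonMeasure 1 {0} = exp (-1)`, `poissonMeasure lam {0} = exp (-lam)`. -/
def S_HAND : Prop :=
  ∀ (V : Type) [Countable V] (G : SimpleGraph V) (lam : ℝ) (x y : V) (k : ℤ), 0 < lam →
    (G.Adj x y → ENNReal.ofReal (hc lam) ≤ mu V lam {ω | Con (Rs G {x, y}) ω x k y (k + 1)}) ∧
    mu V lam {ω | (ω (Sum.inr x, k)).1 = 0} = ENNReal.ofReal (Real.exp (-1))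

/-! ## Survival in the homogeneous tree implies growth in the rooted tree -/

/-- **[EXT]** If the mean number of vertices connected to the root through `n` windows is bounded in
`n`, then every vertex `w` dies out (backwards in time).

Proof. `A_n(ω) = {v | Con (TW e) ω v (-n) [] 0}`, `q_n = P(A_n ≠ ∅)` (nonincreasing in `n`, by
splitting). Put `ε = P(`cell `(inr x, k)` has positive number`) * P(`cell `(inl e, k)` has number
0`)^(e+3) > 0`. For a finite set `B` let `kill B` be the event that in the window `-n-1` every `v ∈ B`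
has a recovery mark and no edge of the tree touching `B` has a mark; `P(kill B) ≥ ε^{|B|}` (each
vertex has at most `e + 3` neighbours), `kill B` is independent of `{A_n = B}` (other windows, [BLOCK]
and `Con_congr`), and on both `A_{n+1} = ∅` (split a path at time `-n`; a path arriving at `v ∈ B` at
time `-n` must stay at `v` during the whole window `(-n-1, -n]`, impossible). Hence for every `K`,
`P(1 ≤ |A_n| ≤ K) ≤ ε^{-K} (q_n - q_{n+1})` and
`q_n ≤ ε^{-K} (q_n - q_{n+1}) + P(|A_n| > K) ≤ ε^{-K} (q_n - q_{n+1}) + C / K`. Let `n → ∞`, then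
`K → ∞`: `q_n → 0`. This is the claim for `w = []`. For general `w`: a path from `(w, -|w|)` to
`([], 0)` exists with probability `≥ hc^{|w|} > 0` ([HAND], `|w|` windows), it is independent of the
event `∀ n, ∃ v, Con v (-|w|-n) w (-|w|)`, which has the same probability as the event for `w` at time
`0` ([RIX], `pull id`), and both together imply `∀ n, ∃ v, Con v (-n) [] 0`. -/
def S_EXT : Prop :=
  ∀ (e : ℕ) (lam : ℝ) (C : ℝ≥0∞), 0 < lam → C ≠ ∞ → (∀ n, bb e lam n ≤ C) →
    ∀ w : W e, mu (W e) lam {ω | ∀ n : ℕ, ∃ v, Con (TW e) ω v (-(n : ℤ)) w 0} = 0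

/-- **[HIT]** Let `Φ` embed the rooted tree into `G` such that only the root has neighbours outside
the image, and suppose that `w` dies out in the rooted tree. Then the root is connected to `w`
with probability at least `e^{-1}` times the probability that `Φ w` survives in `G`.

Proof. Write `r = Φ []`, `o = Φ w`, `H = Rs G (range Φ)`; for `k : ℤ` let `del k ω` be `ω` with the
number of the cell `(inr r, k)` replaced by `0` (no recoveries of `r` in the window `k`).
(a) Deterministic: if `PE G ω y s x t` with `s` an integer and `x ∈ range Φ`, then either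
`PE H ω y s x t`, or there is an integer `k`, `s ≤ k < t`, with `PE H (del k ω) r k x t`.
Induction on the path. start: left. stay: extend either one (`del k ω` has fewer recoveries).
cross from `(x', t)` to `(x, t)`: if `x' ∈ range Φ`, extend either one. If `x' ∉ range Φ`, then `x = r`
(only the root has neighbours outside); let `k = ⌈t⌉ - 1`, so `s ≤ k < t ≤ k + 1`; `r` has no recovery
in the window `k` of `del k ω`, so `PE H (del k ω) r k r t` by one `stay`.
(b) Let `D_j = {ω | PE H (del (-j-1) ω) r (-j-1) o 0}`, `j ≥ 0`. On the event that `o` survives in `G`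
(`∀ n, ∃ y, Con G ω y (-n) o 0`) but not in `H`, some `D_j` holds, by (a). The event that `o` survives
in `H` has probability `0` (transport by `PE_pull` and [RIX]). So `P(⋃ D_j) ≥ θ := P(o survives in G)`.
(c) `F_j = D_j \ ⋃_{i<j} D_i` does not depend on the cell `(inr r, -j-1)`, hence is independent of
`NR_j = {number of this cell = 0}`, `P(NR_j) = e^{-1}` ([HAND]). On `NR_j`, `del (-j-1) ω = ω`, so
`F_j ∩ NR_j ⊆ {PE H ω r (-j-1) o 0}`. Hence
`P(∃ n, Con H ω r (-n) o 0) ≥ ∑_j P(F_j ∩ NR_j) = e^{-1} ∑_j P(F_j) ≥ e^{-1} θ`.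
Transport the left side to the rooted tree by `PE_pull` and [RIX]. -/
def S_HIT : Prop :=
  ∀ (e : ℕ) (lam : ℝ) (V : Type) [Countable V] (G : SimpleGraph V) (Φ : W e → V) (w : W e),
    0 < lam → Function.Injective Φ → (∀ u v, (TW e).Adj u v ↔ G.Adj (Φ u) (Φ v)) →
    (∀ u, u ≠ [] → ∀ x, G.Adj (Φ u) x → x ∈ range Φ) →
    mu (W e) lam {ω | ∀ n : ℕ, ∃ v, Con (TW e) ω v (-(n : ℤ)) w 0} = 0 →
    ENNReal.ofReal (Real.exp (-1)) * mu V lam {ω | ∀ n : ℕ, ∃ y, Con G ω y (-(n : ℤ)) (Φ w) 0} ≤
      mu (W e) lam {ω | ∃ n : ℕ, Con (TW e) ω [] (-(n : ℤ)) w 0}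

/-- **[CHAIN]** Chaining of hitting probabilities along a line of descent.

Proof. Induction on `j` (`j = 0`: `w = []`, probability `1`). Step: `w = u ++ v`, `|u| = m`,
`|v| = j m`. For `i ≤ n0` let `T_i = {Con H ω v (-i) w 0}`, `H = Rs (TW e) ((· ++ v) '' univ)`, and
`F_i = T_i \ ⋃_{i' < i} T_{i'}`, which depends on the windows `-i, …, -1` only (`Con_congr`).
`∑_{i ≤ n0} P(F_i) = P(⋃ T_i) ≥ β` (by `PE_pull` along `(· ++ v)` and [RIX], the hypothesis for `u`).
`Q_i = {∃ n ≤ j n0, Con (TW e) ω [] (-i - n) v (-i)}` depends on the windows `< -i` and has the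
probability of the induction hypothesis (shift), so `P(F_i ∩ Q_i) = P(F_i) P(Q_i) ≥ P(F_i) β^j`
([BLOCK]); the events `F_i ∩ Q_i` are disjoint and imply `∃ n ≤ (j+1) n0, Con (TW e) ω [] (-n) w 0`
(`PE.trans`, `PE.mono`). -/
def S_CHAIN : Prop :=
  ∀ (e : ℕ) (lam : ℝ) (m n0 : ℕ) (β : ℝ≥0∞), 0 < lam →
    (∀ w : W e, w.length = m →
      β ≤ mu (W e) lam {ω | ∃ n : ℕ, n ≤ n0 ∧ Con (TW e) ω [] (-(n : ℤ)) w 0}) →
    ∀ (j : ℕ) (w : W e), w.length = j * m →
      β ^ j ≤ mu (W e) lam {ω | ∃ n : ℕ, n ≤ j * n0 ∧ Con (TW e) ω [] (-(n : ℤ)) w 0}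

/-- **[TREE]** Embeddings of the rooted tree into a homogeneous tree, and countability.

Proof. Let `o ∈ V`, `w ∈ W e`. Choose a non-backtracking walk `o = z_0, z_1, …, z_{|w|}, z_{|w|+1}`
(possible since all degrees are `e + 3 ≥ 3`). Define `Φ [] = z_{|w|}` with `parent` `z_{|w|+1}`, and
recursively for `u` with image `x = Φ u` and parent `x'` (`= Φ (tail u)`, resp. `z_{|w|+1}`) choose a
bijection of `Fin (e + 2)` onto the neighbours of `x` other than `x'`, `Φ (a :: u)` its values; if `u` is
the tail of length `i` of `w` then `x = z_{|w| - i}` and the bijection is chosen such that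
`Φ (next tail of w) = z_{|w| - i - 1}`. Then `Φ w = o`. In a tree (acyclic) a non-backtracking walk is a
path and `dist (Φ v) (Φ (u ++ v)) = |u|`; this gives injectivity and the adjacency statement (two
adjacent vertices `Φ u`, `Φ v` which are not parent and child would close a cycle). Countable: balls
are finite, `G` is connected. -/
def S_TREE : Prop :=
  ∀ (e : ℕ) (V : Type) (G : SimpleGraph V), G.IsTree →
    (∀ x, (G.neighborSet x).encard = (e : ℕ∞) + 3) →
    Countable V ∧ ∀ (o : V) (w : W e), ∃ Φ : W e → V, Function.Injective Φ ∧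
      (∀ u v, (TW e).Adj u v ↔ G.Adj (Φ u) (Φ v)) ∧
      (∀ u, u ≠ [] → ∀ x, G.Adj (Φ u) x → x ∈ range Φ) ∧ Φ w = o

/-- **[SURV]** Survival in the homogeneous tree implies that the means in the rooted tree are
unbounded (assembly of [EXT], [HIT], [CHAIN], [TREE], [REV]). -/
def S_SURV : Prop :=
  ∀ (e : ℕ) (lam : ℝ) (V : Type) (G : SimpleGraph V) (o : V), 0 < lam → G.IsTree →
    (∀ x, (G.neighborSet x).encard = (e : ℕ∞) + 3) →
    mu V lam {ω | ∀ n : ℕ, ∃ y, Con G ω y (-(n : ℤ)) o 0} ≠ 0 →
    ∀ C : ℝ≥0∞, C ≠ ∞ → ∃ n, C < bb e lam n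

/-! ## Growth -/

/-- **[FREE]** Free children of a finite set of vertices of the rooted tree.

Proof. Let `A` be finite. Pairs `(y, a)`, `y ∈ A`; call the pair occupied if some `u ++ a :: y ∈ A`.
For an occupied pair choose such an element `x` of minimal length. Then `y` is the longest proper
suffix of `x` in `A`, so `(y, a)` is determined by `x` (the map from occupied pairs to `A` is
injective), and `x` is not an element of minimal length of `A`. So there are at most `|A| - 1` occupied
pairs, and at least `(e + 2) |A| - (|A| - 1) ≥ (e + 1) |A|` free pairs. -/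
def S_FREE : Prop :=
  ∀ (e : ℕ) (A : Finset (W e)),
    (e + 1) * A.card ≤
      {p : W e × Fin (e + 2) | p.1 ∈ A ∧ ∀ u : W e, u ++ p.2 :: p.1 ∉ A}.ncard

/-- **[SUPER]** Supermultiplicativity.

Proof. Let `A = {w | Con (TR e R) ω w (-n) [] 0}` (a subset of the finite set of the words of length
`≤ R`). For `y : W e`, `a : Fin (e + 2)`, `u : W e` consider the event `E(y,a,u)`:
(1) `y ∈ A` and no `u' ++ a :: y` is in `A` [windows `-n, …, -1`];
(2) `Con (Rs (TW e) {a :: y, y}) ω (a :: y) (-n-1) y (-n)` [window `-n-1`];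
(3) `Con (Rs (TW e) ((· ++ a :: y) '' {u | u.length ≤ R'})) ω (u ++ a :: y) (-n-1-n') (a :: y) (-n-1)`
[windows `< -n-1`].
Then `Con (TR e (R+1+R')) ω (u ++ a :: y) (-n-1-n') [] 0` (`PE.trans`, `PE.mono`; if `u` is longer than
`R'` then (3) fails, except that for `n' = 0`, `Con` is equality, so `u = []`). For a given vertex `x`
the events `E(y,a,u)` with `u ++ a :: y = x` are disjoint (if `(y,a,u)`, `(y',a',u')` both hold and
`|y| < |y'|`, then `y' ∈ A` is a descendant of `a :: y`, contradiction; if `|y| = |y'|` they are equal).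
So the right side is at least `∑_{(y,a,u)} P(E(y,a,u))
  = ∑_{(y,a)} P((1)) · P((2)) · ∑_u P((3)) ≥ (mean number of free pairs) · hc lam · bR e lam R' n'`
(independence of windows [BLOCK] and `Con_congr`; [HAND]; the sum over `u` of the probabilities of (3)
is `bR e lam R' n'` by `PE_pull` along `(· ++ a :: y)` and [RIX]); and by [FREE] the mean number of free
pairs is at least `(e + 1) * bR e lam R n`. -/
def S_SUPER : Prop :=
  ∀ (e : ℕ) (lam : ℝ) (R R' n n' : ℕ), 0 < lam →
    ENNReal.ofReal (hc lam) * (e + 1) * bR e lam R n * bR e lam R' n' ≤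
      bR e lam (R + 1 + R') (n + 1 + n')

/-- **[PIG]** There are a level `n ≥ 1` and `K`, `R` such that the mean number of the vertices of
level `n` which are connected to the root through `K` windows inside the first `R` levels is larger
than one.

Proof. `bb e lam n = sup_R bR e lam R n` (a path uses finitely many vertices, `Con` in `TW e` is the
increasing union of `Con` in `TR e R`; monotone convergence of the sums). Put
`g = ofReal (hc lam) * (e + 1) > 0`; choose `n`, `R` with `g * bR e lam R n ≥ 2`. By [SUPER] and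
induction, with `R_J = J (R+1) - 1`, `n_J = J (n+1) - 1`: `g * bR e lam R_J n_J ≥ 2^J`. For `J` large
`2^J / g > R_J + 1`, so one of the `R_J + 1` levels `ℓ ≤ R_J` contributes more than `1` to
`bR e lam R_J n_J` (words longer than `R_J` contribute `0`, if they are not `[]`; note `n_J ≥ 1` for
large `J`, for `n_J = 0` only `w = []` contributes). `ℓ ≠ 0`, because the level `0` contributes a
probability. -/
def S_PIG : Prop :=
  ∀ (e : ℕ) (lam : ℝ), 0 < lam → (∀ C : ℝ≥0∞, C ≠ ∞ → ∃ n, C < bb e lam n) →
    ∃ n K R : ℕ, 1 ≤ n ∧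
      1 < ∑' w : {w : W e // w.length = n}, mu (W e) lam {ω | Con (TR e R) ω w (-(K : ℤ)) [] 0}

/-- **[LINE]** A block with mean number of offspring larger than one.

Proof. Let `q > 1` be the sum in the hypothesis and `hc = ofReal (hc lam)`. Choose `J ≥ 1` with
`hc^{R+1} q^J > 1`, `M = 1 + J n + R`, `τ = 1 + J K + R`. For words `s_1, …, s_J` of length `n` and the
fixed word `t = replicate R 0` let `w = t ++ s_J ++ … ++ s_1 ++ [0]` (an element of `Lset e M`;
different `(s_i)` give different `w`). Then
`P(Con (Rs (TW e) (Bset e M)) ω w (-τ) [] 0) ≥ hc · ∏_i P(Con (TR e R) ω s_i (-K) [] 0) · hc^R`: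
one window from `[0]` to `[]` ([HAND]); `K` windows from `s_1 ++ [0]` to `[0]` inside the first `R`
levels of the descendants of `[0]` (`PE_pull` along `(· ++ [0])`, [RIX]); and so on; and `R` windows
from `w` down to `s_J ++ … ++ [0]`, one level per window. All are in disjoint windows, hence
independent ([BLOCK]); all the vertices used are in `Bset e M` (`1 + (i-1) n + R ≤ M`). Use
`P(Con G ω x k z m) ≥ P(Con G ω x k y l) P(Con G ω y l z m)` for `k ≤ l ≤ m`. Sum over all
`(s_i)`: `≥ hc^{R+1} q^J > 1`. -/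
def S_LINE : Prop :=
  ∀ (e : ℕ) (lam : ℝ), 0 < lam →
    (∃ n K R : ℕ, 1 ≤ n ∧
      1 < ∑' w : {w : W e // w.length = n}, mu (W e) lam {ω | Con (TR e R) ω w (-(K : ℤ)) [] 0}) →
    ∃ M τ : ℕ, 2 ≤ M ∧ 1 ≤ τ ∧
      1 < ∑' w : Lset e M, mu (W e) lam {ω | Con (Rs (TW e) (Bset e M)) ω w (-(τ : ℤ)) [] 0}

/-- **[GWN]** One generation of a branching process.

Proof. Let `D` be the number of elements of `L` and `m = ∑ P(X w)`. Given the set `A` of the `w` with
`X w` (an event of `σ(X)`, independent of the `Y w`, which are mutually independent)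
`P(∃ w ∈ A, Y w) = 1 - ∏_{w ∈ A} (1 - P(Y w)) ≥ 1 - (1 - ε)^{|A|} ≥ |A| ε / (1 + |A| ε)
≥ |A| ε / (1 + D ε)` (Bernoulli: `(1 - ε)^k (1 + k ε) ≤ (1 - ε)^k (1 + ε)^k ≤ 1`). Taking the mean:
`≥ m ε / (1 + D ε) ≥ ε`. The independence hypothesis is in the form: the sets
`{ω | {w | X w ω} = A}` and the events `Y w` are independent. -/
def S_GWN : Prop :=
  ∀ (L Ω : Type) [Fintype L] [MeasurableSpace Ω] (P : Measure Ω) [IsProbabilityMeasure P]
    (X Y : L → Set Ω) (ε : ℝ), 0 < ε → (∀ w, MeasurableSet (X w)) → (∀ w, MeasurableSet (Y w)) →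
    (∀ (A B : Set L), P ({ω | {w | ω ∈ X w} = A} ∩ ⋂ w ∈ B, (Y w)ᶜ) =
      P {ω | {w | ω ∈ X w} = A} * ∏ w : L, (open Classical in if w ∈ B then P (Y w)ᶜ else 1)) →
    (∀ w, ENNReal.ofReal ε ≤ P (Y w)) →
    ENNReal.ofReal (1 + Fintype.card L * ε) ≤ ∑ w, P (X w) →
    ENNReal.ofReal ε ≤ P {ω | ∃ w, ω ∈ X w ∧ ω ∈ Y w}

/-- **[GW]** The backward chains of blocks survive with positive probability.

Proof. `Lset e M` is finite. Let `m` be the sum in the hypothesis; choose `ε > 0`, `ε ≤ 1`, with
`1 + |Lset| ε ≤ m`. Show by induction on `i` that `P(Sv i c t) ≥ ε` for all `c`, `t`: apply [GWN] with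
`X w = {Blk ω c t w}`, `Y w = {Sv i (w ++ c) (t - 1)}`, `w ∈ Lset e M`. `P(X w)` is the probability in the
hypothesis by `PE_pull` along `(· ++ c)` and [RIX]. Independence by [BLOCK]: all `X w` depend on the
windows `(t-1) τ, …, t τ - 1`; `Y w` depends on labels of descendants of `w ++ c` (`inr (u ++ w ++ c)`,
`inl s(a :: u ++ w ++ c, u ++ w ++ c)`) in windows `< (t-1) τ`; these sets are disjoint for different `w`
of the same length `M`. Finally `Sv (i+1) ⟹ Sv i`, so `P(∀ i, Sv i c t) = lim P(Sv i c t) ≥ ε`. -/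
def S_GW : Prop :=
  ∀ (e : ℕ) (lam : ℝ) (M τ : ℕ), 0 < lam → 2 ≤ M → 1 ≤ τ →
    1 < ∑' w : Lset e M, mu (W e) lam {ω | Con (Rs (TW e) (Bset e M)) ω w (-(τ : ℤ)) [] 0} →
    ∃ ε : ℝ≥0∞, 0 < ε ∧ ∀ (c : W e) (t : ℤ), ε ≤ mu (W e) lam {ω | ∀ i, Sv e M τ ω i c t}

/-! ## Delivery and coupling -/

/-- **[GEV]** The events `Gev v j` are measurable and have probability bounded below.

Proof. Measurability by [MEAS]. With `y = par e j :: v`, `z = 0 :: y`: the first part of `Gev`
depends on the windows `< j τ`, the second on the window `j τ`, the third on the windows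
`j τ + 1, …, (j + 1) τ` (it contains the event that the cells `(inr y, k)` of these windows have number
`0`, probability `e^{-τ}`). So by [BLOCK], [HAND], [GW]: `P ≥ ε · hc lam · e^{-τ}`. -/
def S_GEV : Prop :=
  ∀ (e : ℕ) (lam : ℝ) (M τ : ℕ) (ε : ℝ≥0∞), 0 < lam → 2 ≤ M → 1 ≤ τ → 0 < ε →
    (∀ (c : W e) (t : ℤ), ε ≤ mu (W e) lam {ω | ∀ i, Sv e M τ ω i c t}) →
    (∀ v j, MeasurableSet {ω : Env (Lab (W e)) | Gev e M τ ω v j}) ∧
    ∃ p0 : ℝ, 0 < p0 ∧ ∀ (v : W e) (j : ℤ), ENNReal.ofReal p0 ≤ mu (W e) lam {ω | Gev e M τ ω v j}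

/-- **[GEO]** The events `Gev v j` (`v` of type `0`, `j : ℤ`) depend on disjoint sets of cells, which
do not contain recoveries of vertices of type `0` nor the edges below vertices of type `0`.

Proof. Note `st M (q ++ c) = 2 + |q|` for `st M c = 2`, `q ∈ Bset e M`, `|q| < M`, and `= 2` for
`|q| = M`. Let `y = par e j :: v`, `z = 0 :: y`; `st v = 0`, `st y = 1`, `st z = 2`. For `u : W e` say
that `u` is admissible for `z` if `2 ≤ st M (q ++ z)` for all suffixes `q` of `u`. Let `Supp v j` consist
of
(1) `(inr y, t)`, `j τ ≤ t < (j + 2) τ`;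
(2) `(inr (u ++ z), t)` and `(inl s(u ++ z, (u ++ z).tail), t)`, `u` admissible for `z`,
`(j - |u| / M - 1) τ ≤ t < (j - |u| / M + 1) τ`.
Dependence: the chains of blocks started from `(z, j)` use blocks `(c, j - i)` with `c = u ++ z`,
`|u| = i M`, `u` admissible; such a block uses the vertices `q ++ c`, `q ∈ Bset e M`, and the edges
between them, in the windows `(j-i-1) τ ≤ t < (j-i) τ` (`Con_congr`, `Use`); all are in `Supp v j`. The
handing over uses `inr z`, `inr y`, `inl s(z,y)` in the window `j τ`; the last part uses `inr y` in the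
windows `j τ + 1, …, (j+1) τ`.
Disjointness: the vertex `x` of a label of (2) (the lower vertex of an edge) has type `≥ 2`; `z` is
determined by `x`: it is the longest suffix of `x` of type `2` whose tail has type `1` (if `z`, `z'` are
two candidates, `z` shorter, then the tail of `z'` would have type `1`, but it is between `z` and `x`,
so it has type `≥ 2`). Hence for different `v`, or the same `v` and different parities of `j`, the
labels are different. For the same `v` and parity, `|j - j'| ≥ 2`, and the windows used for a given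
label are disjoint. -/
def S_GEO : Prop :=
  ∀ (e M τ : ℕ), 2 ≤ M → 1 ≤ τ → ∃ Supp : W e → ℤ → Set (Lab (W e) × ℤ),
    (∀ v v' j j', st e M v = 0 → st e M v' = 0 → (v, j) ≠ (v', j') →
      Disjoint (Supp v j) (Supp v' j')) ∧
    (∀ v j, st e M v = 0 → ∀ ω ω' : Env (Lab (W e)), (∀ i ∈ Supp v j, ω i = ω' i) →
      (Gev e M τ ω v j ↔ Gev e M τ ω' v j)) ∧
    (∀ v j u t, st e M v = 0 → st e M u = 0 → (Sum.inr u, t) ∉ Supp v j) ∧
    (∀ v j u a t, st e M v = 0 → st e M u = 0 → (Sum.inl s(a :: u, u), t) ∉ Supp v j)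

/-- **[ACC]** Accept all the marks of a set of windows or none.

Proof. `K = n` on the accepted event, `K = 0` otherwise. For a vector `κ ≠ 0` of numbers with sum
`|κ| ≥ 1` and measurable sets `B_t` of position sequences
`P(∀ t, K t = κ t, U t ∈ B_t) = P(∀ t, n t = κ t, U t ∈ B_t) P(Gs) P(Va ≤ acc |κ|)
  = ∏ e^{-lam} lam^{κ t} / κ t! ν(B_t) · p · (α/lam)^{|κ|} e^{(lam - α) |T|} / p
  = ∏ e^{-α} α^{κ t} / κ t! ν(B_t)`
(`acc |κ| ≤ 1` by the assumption on `α`). For `κ = 0` take complements:
`P(K = 0, ∀ t, U t ∈ B_t) = P(∀ t, U t ∈ B_t) - ∑_{κ ≠ 0} … = ∏ ν(B_t) (1 - ∑_{κ ≠ 0} ∏ …)`. So the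
joint law of the `C' t` is the product of the laws `cellLaw α` (boxes `{κ t} × B_t` generate; see
`iIndepFun_iff_map_fun_eq_pi_map` and `Measure.pi_eq_generateFrom` or `Measure.prod` extensionality). -/
def S_ACC : Prop :=
  ∀ (T Ω : Type) [Fintype T] [MeasurableSpace Ω] (P : Measure Ω) [IsProbabilityMeasure P]
    (C : T → Ω → Cell) (Gs : Set Ω) (Va : Ω → U1) (lam α p : ℝ), 0 < lam → 0 < α → 0 < p →
    α * Real.exp (lam * Fintype.card T) ≤ lam * p →
    (∀ t, Measurable (C t)) → MeasurableSet Gs → Measurable Va → P Gs = ENNReal.ofReal p →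
    (∀ t, P.map (C t) = cellLaw lam) → P.map Va = unif → iIndepFun C P →
    (∀ (A : Set (T → Cell)) (B : Set U1), MeasurableSet A → MeasurableSet B →
      P ({ω | (fun t => C t ω) ∈ A} ∩ Gs ∩ {ω | Va ω ∈ B}) =
        P {ω | (fun t => C t ω) ∈ A} * P Gs * P {ω | Va ω ∈ B}) →
    ∃ C' : T → Ω → Cell, (∀ t, Measurable (C' t)) ∧ iIndepFun C' P ∧
      (∀ t, P.map (C' t) = cellLaw α) ∧
      (∀ ω t, C' t ω = C t ω ∨ C' t ω = (0, (C t ω).2)) ∧
      (∀ ω, ω ∉ Gs → ∀ t, (C' t ω).1 = 0) ∧
      (∀ ω ω', (∀ t, C t ω = C t ω') → (ω ∈ Gs ↔ ω' ∈ Gs) → Va ω = Va ω' → ∀ t, C' t ω = C' t ω')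

/-- **[COUP]** The coupling with a spin-flip process.

Proof. `α = lam p0 e^{-lam τ}`. Index set `J = (Lab V × ℤ) ⊕ (V × ℤ) ⊕ ((V ⊕ V) × ℤ)`,
`Ω = J → Cell` with the product of the laws `cellLaw`, rates: `contactRate lam` for the first
summand, anything for the second (the position `U 0` of the cell `(v, j)` is the uniform variable `Va`),
`spinRate α` for the third (fresh cells). `η` is the projection to the first summand (law `mu V lam` by
[RIX]), `N i = marks η i`. For `k : ℤ` let `j(k) = ⌊(k - 1) / τ⌋`, so that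
`j τ + 1 ≤ k ≤ (j + 1) τ`. For `v ∈ D` and `j : ℤ` apply [ACC] to the cells
`(inl (e v k), k)`, `k ∈ T = {j τ + 1, …, (j + 1) τ}`, the event `η ∈ Gv v j` (its probability `p` is at
least `p0`) and `Va`; get modified cells `C' (v, k)`. Define the cells of the family `M`: for `v ∈ D`,
`(inl v, k) ↦ C' (v, k)`, `(inr v, k) ↦ η (inr v, k)`; for `v ∉ D` the fresh cells. They are independent
with the laws `cellLaw (spinRate α _)`: the blocks `(v, j)` (functions of the cells `(inl (e v k), k)`,
`k ∈ T`, the cell of `Va`, the cells of `Sp v j`) and the single cells `(inr v, k)`, `v ∈ D`, and the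
fresh cells depend on disjoint sets of coordinates ([BLOCK]), and inside a block use [ACC]. Then
[POIS] gives both Poisson families. A mark `s ∈ (k, k + 1]` of `(inl v)` is a mark of an accepted cell,
hence a mark of `η (inl (e v k), k)`, and `η ∈ Gv v (j(k))`. -/
def S_COUP : Prop :=
  ∀ (V : Type) [Countable V] (lam : ℝ) (D : Set V) (τ : ℕ) (ed : V → ℤ → Sym2 V)
    (Gv : V → ℤ → Set (Env (Lab V))) (Sp : V → ℤ → Set (Lab V × ℤ)) (p0 : ℝ),
    0 < lam → 1 ≤ τ → 0 < p0 →
    (∀ v ∈ D, ∀ j, MeasurableSet (Gv v j)) →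
    (∀ v ∈ D, ∀ j, ∀ ω ω' : Env (Lab V), (∀ i ∈ Sp v j, ω i = ω' i) →
      (ω ∈ Gv v j ↔ ω' ∈ Gv v j)) →
    (∀ v ∈ D, ∀ v' ∈ D, ∀ j j', (v, j) ≠ (v', j') → Disjoint (Sp v j) (Sp v' j')) →
    (∀ v ∈ D, ∀ j, ∀ v' ∈ D, ∀ t, (Sum.inr v', t) ∉ Sp v j ∧ (Sum.inl (ed v' t), t) ∉ Sp v j) →
    (∀ v ∈ D, ∀ v' ∈ D, ∀ t, ed v t = ed v' t → v = v') →
    (∀ v ∈ D, ∀ j, ENNReal.ofReal p0 ≤ mu V lam (Gv v j)) →
    ∃ α : ℝ, 0 < α ∧ ∃ (Ω : Type) (_ : MeasurableSpace Ω) (P : Measure Ω)
      (_ : IsProbabilityMeasure P) (N : Lab V → Ω → Set ℝ) (M : V ⊕ V → Ω → Set ℝ),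
      IsPoissonFamily P (contactRate lam) N ∧ IsPoissonFamily P (spinRate α) M ∧
      ∀ ω, ∃ η : Env (Lab V), (∀ i, N i ω = marks η i) ∧
        (∀ v ∈ D, M (Sum.inr v) ω = marks η (Sum.inr v)) ∧
        ∀ v ∈ D, ∀ s ∈ M (Sum.inl v) ω, ∃ k j : ℤ, (k : ℝ) < s ∧ s ≤ k + 1 ∧ j * τ + 1 ≤ k ∧
          k ≤ (j + 1) * τ ∧ s ∈ marks η (Sum.inl (ed v k)) ∧ η ∈ Gv v j

/-- **[DOM]** Deterministic: on `Gev v j` a transmission mark between `v` and `y = par e j :: v` at a
time `s` in `(j τ + 1, (j + 1) τ + 1]`, followed by no recovery of `v` in `(s, t]`, infects `v` at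
time `t ≥ 0`.

Proof. Write `z = 0 :: y`. (a) If all `Sv i c k` hold then for every real `s' < k τ` there is `y'` with
`PE y' s' c (k τ)` (chain of `i` blocks, `PE.trans`, `PE.mono`, then `PE.split` at `s'`). (b) If all
`Sv i c k` hold then for some `w ∈ Lset e M`, `Blk c k w` and all `Sv i (w ++ c) (k - 1)` hold
(`Lset e M` is finite and `Sv (i+1) ⟹ Sv i`). So, if `j ≥ 0`, after `j` steps there is `c` with all
`Sv i c 0` and `PE c 0 z (j τ)`. (c) `z` at time `j τ` leads to `y` at time `j τ + 1` and to `y` at all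
times up to `(j + 1) τ + 1`. If `s ≤ 0`: for every `s' < s` there is a path from time `s'` to `(y, s)`,
cross at `s` to `v`, stay until `0`: so `v` satisfies the first clause of `UpE` (for `s ≤ s' < 0` stay
at `v`), and stay until `t`. If `s > 0` and `j ≥ 0`: take `c` of (b), path `c 0 → z (j τ) → y s → v s →
v t`. If `s > 0` and `j < 0` then `j τ + 1 ≤ 0` (as `τ ≥ 1`), and `y` satisfies the first clause of
`UpE` (path `→ z (j τ) → y 0`, or by splitting), then `y 0 → y s → v s → v t`. -/
def S_DOM : Prop :=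
  ∀ (e M τ : ℕ) (ω : Env (Lab (W e))) (v : W e) (j : ℤ) (s t : ℝ), 2 ≤ M → 1 ≤ τ →
    Gev e M τ ω v j → (j : ℝ) * τ + 1 < s → s ≤ ((j : ℝ) + 1) * τ + 1 →
    s ∈ marks ω (Sum.inl s(par e j :: v, v)) → 0 ≤ t → s ≤ t →
    (∀ r ∈ marks ω (Sum.inr v), ¬ (s < r ∧ r ≤ t)) → UpE (TW e) ω v t

/-- **[DENS]** The vertices of type `0` have positive density.

Proof. For every `u : W e` there is `q` with `|q| ≤ M + 2` and `st e M (q ++ u) = 0` (follow the
phases to `2`, then the letter `1` leads to `0`; from type `1` the letter `1` leads to `0`). So the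
number of the `x` with `|x| ≤ n` and type `0` is at least `(e+2)^{n-M-2}` (the descendants of different
words of the same length are different). `dist (Φ []) (Φ u) ≤ |u|`. The ball of radius `n` around any
vertex has at most `(e + 4) (e + 2)^n` elements: the sphere of radius `n + 1` has at most `e + 2` times
as many elements as the sphere of radius `n ≥ 1` (one of the `e + 3` neighbours is closer to the
centre), the sphere of radius `1` has `e + 3` elements. For a centre `o'` with
`D = dist o' (Φ [])`, the ball of radius `n ≥ D` around `o'` contains the ball of radius `n - D` around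
`Φ []`. So the ratio is at least `(e+2)^{-(D+M+2)} / (e + 4)` for large `n`. -/
def S_DENS : Prop :=
  ∀ (e : ℕ) (V : Type) (G : SimpleGraph V) (Φ : W e → V) (M : ℕ), G.IsTree →
    (∀ x, (G.neighborSet x).encard = (e : ℕ∞) + 3) → Function.Injective Φ →
    (∀ u v, (TW e).Adj u v ↔ G.Adj (Φ u) (Φ v)) → 2 ≤ M →
    PosDensity G (Φ '' {u | st e M u = 0})

end Pool.Agent.H948.SF
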