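import Pool.Agent.H948.SF.Base

/-!
# Assembly: survival in the homogeneous tree implies unbounded means in the rooted tree
-/

namespace Pool.Agent.H948.SF

open MeasureTheory ProbabilityTheory Set Filter
open scoped ENNReal NNReal Nat Topology

theorem meas_Con (h3 : S_MEAS) {V : Type} [Countable V] (G : SimpleGraph V) (x y : V) (k l : ℤ) :
    MeasurableSet {ω : Env (Lab V) | Con G ω x k y l} := h3 V G x y k l

/-- An exponential beats a linear function. -/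
theorem exp_beats (C : ℝ≥0∞) (hC : C ≠ ∞) (n0 : ℕ) :
    ∃ j : ℕ, ((j * n0 + 1 : ℕ) : ℝ≥0∞) * C < 2 ^ j := by
  have h1 : Tendsto (fun n : ℕ => (n : ℝ) ^ 1 / (2 : ℝ) ^ n) atTop (𝓝 0) :=
    tendsto_pow_const_div_const_pow_of_one_lt 1 one_lt_two
  have h0 : Tendsto (fun n : ℕ => (n : ℝ) ^ 0 / (2 : ℝ) ^ n) atTop (𝓝 0) :=
    tendsto_pow_const_div_const_pow_of_one_lt 0 one_lt_two
  have h2 : Tendsto (fun n : ℕ => ((n : ℝ) ^ 1 / (2 : ℝ) ^ n * n0 + (n : ℝ) ^ 0 / (2 : ℝ) ^ n) *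
      C.toReal) atTop (𝓝 ((0 * n0 + 0) * C.toReal)) :=
    ((h1.mul_const _).add h0).mul_const _
  simp only [zero_mul, add_zero] at h2
  obtain ⟨j, hj⟩ := ((tendsto_order.1 h2).2 1 one_pos).exists
  refine ⟨j, ?_⟩
  have h2j : (0 : ℝ) < 2 ^ j := by positivity
  have hj' : ((j : ℝ) * n0 + 1) * C.toReal < 2 ^ j := by
    have : ((j : ℝ) ^ 1 / (2 : ℝ) ^ j * n0 + (j : ℝ) ^ 0 / (2 : ℝ) ^ j) * C.toReal =
      (((j : ℝ) * n0 + 1) * C.toReal) / 2 ^ j := by field_simp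
    rw [this, div_lt_one h2j] at hj
    exact hj
  rw [← ENNReal.ofReal_toReal hC]
  have e1 : ((j * n0 + 1 : ℕ) : ℝ≥0∞) = ENNReal.ofReal ((j : ℝ) * n0 + 1) := by
    rw [← ENNReal.ofReal_natCast]; push_cast; rfl
  have e2 : (2 : ℝ≥0∞) ^ j = ENNReal.ofReal (2 ^ j) := by
    rw [ENNReal.ofReal_pow (by norm_num)]; norm_num
  rw [e1, e2, ← ENNReal.ofReal_mul (by positivity)]
  exact (ENNReal.ofReal_lt_ofReal_iff h2j).2 hj'

instance instFintypeWords (e L : ℕ) : Fintype {w : W e // w.length = L} :=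
  inferInstanceAs (Fintype (List.Vector (Fin (e + 2)) L))

theorem card_words (e L : ℕ) : Fintype.card {w : W e // w.length = L} = (e + 2) ^ L := by
  have h : Fintype.card (List.Vector (Fin (e + 2)) L) = (e + 2) ^ L := by simp
  exact h

theorem s_surv (hrev : S_REV) (hext : S_EXT) (hhit : S_HIT) (hchain : S_CHAIN)
    (htree : S_TREE) : S_SURV := by
  intro e lam V G o hlam hG hdeg hθ C hC
  by_contra hcon
  push Not at hcon
  obtain ⟨hV, hemb⟩ := htree e V G hG hdeg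
  have := hV
  set θ := mu V lam {ω | ∀ n : ℕ, ∃ y, Con G ω y (-(n : ℤ)) o 0} with hθdef
  have hdead := hext e lam C hlam hC hcon
  set κ := ENNReal.ofReal (Real.exp (-1)) * θ with hκ
  have hκ0 : κ ≠ 0 := by
    rw [hκ]; exact mul_ne_zero (by simp [Real.exp_pos]) hθ
  have hκt : κ ≠ ∞ := by
    rw [hκ]; exact ENNReal.mul_ne_top ENNReal.ofReal_ne_top (measure_ne_top _ _)
  have hhits : ∀ w : W e, κ ≤ mu (W e) lam {ω | ∃ n : ℕ, Con (TW e) ω [] (-(n : ℤ)) w 0} := by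
    intro w
    obtain ⟨Φ, hinj, hadj, hexit, hw⟩ := hemb o w
    have := hhit e lam V G Φ w hlam hinj hadj hexit (hdead w)
    rwa [hw] at this
  set β := κ / 2 with hβ
  have hβ0 : β ≠ 0 := by simp [hβ, hκ0]
  have hβt : β ≠ ∞ := by simp [hβ, ENNReal.div_eq_top, hκt]
  have hβκ : β < κ := ENNReal.half_lt_self hκ0 hκt
  -- the number of generations
  obtain ⟨m, hm⟩ : ∃ m : ℕ, 2 ≤ ((e + 2 : ℕ) : ℝ≥0∞) ^ m * β := by
    have hlim : Tendsto (fun m : ℕ => ((e + 2 : ℕ) : ℝ≥0∞) ^ m) atTop (𝓝 ∞) := by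
      apply ENNReal.tendsto_pow_atTop_nhds_top_iff.2
      exact_mod_cast (by omega : 1 < e + 2)
    have : ∀ᶠ m in atTop, 2 / β < ((e + 2 : ℕ) : ℝ≥0∞) ^ m :=
      (tendsto_order.1 hlim).1 _ (ENNReal.div_lt_top (by norm_num) hβ0)
    obtain ⟨m, hm⟩ := this.exists
    refine ⟨m, ?_⟩
    exact (ENNReal.div_le_iff hβ0 hβt).1 hm.le
  -- the number of windows
  have hn0 : ∀ w : W e, ∃ n0 : ℕ,
      β ≤ mu (W e) lam {ω | ∃ n : ℕ, n ≤ n0 ∧ Con (TW e) ω [] (-(n : ℤ)) w 0} := by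
    intro w
    have hmono : Monotone fun n0 : ℕ =>
        {ω : Env (Lab (W e)) | ∃ n : ℕ, n ≤ n0 ∧ Con (TW e) ω [] (-(n : ℤ)) w 0} := by
      intro a b hab ω ⟨n, hn, h⟩
      exact ⟨n, hn.trans hab, h⟩
    have hlim := tendsto_measure_iUnion_atTop (μ := mu (W e) lam) hmono
    have hU : (⋃ n0 : ℕ, {ω : Env (Lab (W e)) | ∃ n : ℕ, n ≤ n0 ∧
        Con (TW e) ω [] (-(n : ℤ)) w 0}) = {ω | ∃ n : ℕ, Con (TW e) ω [] (-(n : ℤ)) w 0} := by
      ext ω
      simp only [mem_iUnion, Set.mem_ofPred_eq]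
      constructor
      · rintro ⟨_, n, _, h⟩; exact ⟨n, h⟩
      · rintro ⟨n, h⟩; exact ⟨n, n, le_rfl, h⟩
    rw [hU] at hlim
    obtain ⟨n0, hn0⟩ := ((tendsto_order.1 hlim).1 β (lt_of_lt_of_le hβκ (hhits w))).exists
    exact ⟨n0, hn0.le⟩
  choose f hf using hn0
  set n0 := Finset.univ.sup fun w : {w : W e // w.length = m} => f w.1 with hn0def
  have hstep : ∀ w : W e, w.length = m →
      β ≤ mu (W e) lam {ω | ∃ n : ℕ, n ≤ n0 ∧ Con (TW e) ω [] (-(n : ℤ)) w 0} := by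
    intro w hw
    refine (hf w).trans (measure_mono ?_)
    rintro ω ⟨n, hn, h⟩
    refine ⟨n, hn.trans ?_, h⟩
    exact Finset.le_sup (f := fun w : {w : W e // w.length = m} => f w.1)
      (Finset.mem_univ (⟨w, hw⟩ : {w : W e // w.length = m}))
  have hch := hchain e lam m n0 β hlam hstep
  obtain ⟨j, hj⟩ := exp_beats C hC n0
  have hsum : ∀ w : W e, w.length = j * m → β ^ j ≤
      ∑ n ∈ Finset.range (j * n0 + 1), mu (W e) lam {ω | Con (TW e) ω w (-(n : ℤ)) [] 0} := by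
    intro w hw
    refine (hch j w hw).trans ?_
    have hsub : {ω : Env (Lab (W e)) | ∃ n : ℕ, n ≤ j * n0 ∧ Con (TW e) ω [] (-(n : ℤ)) w 0} ⊆
        ⋃ n ∈ Finset.range (j * n0 + 1), {ω | Con (TW e) ω [] (-(n : ℤ)) w 0} := by
      rintro ω ⟨n, hn, h⟩
      simp only [mem_iUnion, Finset.mem_range]
      exact ⟨n, by omega, h⟩
    refine (measure_mono hsub).trans ((measure_biUnion_finset_le _ _).trans ?_)
    refine Finset.sum_le_sum fun n _ => ?_
    rw [hrev (W e) (TW e) lam [] w (-(n : ℤ)) 0 hlam.le (by omega)]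
  have h2 : (2 : ℝ≥0∞) ^ j ≤ ((j * n0 + 1 : ℕ) : ℝ≥0∞) * C := by
    calc (2 : ℝ≥0∞) ^ j ≤ (((e + 2 : ℕ) : ℝ≥0∞) ^ m * β) ^ j := by gcongr
      _ = ∑' w : {w : W e // w.length = j * m}, β ^ j := by
          rw [tsum_fintype, Finset.sum_const, Finset.card_univ, card_words, nsmul_eq_mul, mul_pow,
            ← pow_mul, mul_comm m j]
          push_cast
          rfl
      _ ≤ ∑' w : {w : W e // w.length = j * m}, ∑ n ∈ Finset.range (j * n0 + 1),
            mu (W e) lam {ω | Con (TW e) ω w.1 (-(n : ℤ)) [] 0} :=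
          ENNReal.tsum_le_tsum fun w => hsum w.1 w.2
      _ = ∑ n ∈ Finset.range (j * n0 + 1), ∑' w : {w : W e // w.length = j * m},
            mu (W e) lam {ω | Con (TW e) ω w.1 (-(n : ℤ)) [] 0} := by
          rw [Summable.tsum_finsetSum fun _ _ => ENNReal.summable]
      _ ≤ ∑ n ∈ Finset.range (j * n0 + 1), bb e lam n := by
          refine Finset.sum_le_sum fun n _ => ?_
          exact ENNReal.tsum_comp_le_tsum_of_injective
            (Subtype.val_injective (p := fun w : W e => w.length = j * m))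
            (fun w => mu (W e) lam {ω | Con (TW e) ω w (-(n : ℤ)) [] 0})
      _ ≤ ∑ n ∈ Finset.range (j * n0 + 1), C := Finset.sum_le_sum fun n _ => hcon n
      _ = ((j * n0 + 1 : ℕ) : ℝ≥0∞) * C := by
          rw [Finset.sum_const, Finset.card_range, nsmul_eq_mul]
  exact absurd (lt_of_lt_of_le hj h2) (lt_irrefl _)

end Pool.Agent.H948.SF
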